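import Pool.Agent.Helper42K9.AC.Stm

/-! Leaves ABS, AEI, REG of the project AC (MP_4a7640_nt). -/

set_option autoImplicit false

namespace Pool.Agent.Helper42K9.AC

open Finset MeasureTheory Polynomial Filter Topology

namespace AbsL

lemma val_le (x : Sq) (k : ℤ) : ‖((x k : ℝ) : ℂ)‖ ≤ 1 := by
  rw [Complex.norm_real, Real.norm_eq_abs]
  have h := (x k).2
  simp only [Set.mem_insert_iff, Set.mem_singleton_iff] at h
  rcases h with h | h | h <;> rw [h] <;> simp

/-- a null set is avoided by the whole orbit almost everywhere -/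
lemma ae_orbit {Z : Type} [MeasurableSpace Z] {ρ : Measure Z} {S : Z → Z} (hS : MeasurePreserving S ρ ρ)
    {p : Z → Prop} (hp : ∀ᵐ z ∂ρ, p z) : ∀ᵐ z ∂ρ, ∀ n : ℕ, p (S^[n] z) := by
  rw [ae_all_iff]
  intro n
  exact (hS.iterate n).quasiMeasurePreserving.ae hp

end AbsL

open AbsL

theorem abs_ : S_ABS := by
  intro Z _ ρ _ S π μ hext C H G hH hGi hG0 hGC u hu hu1 hgood
  have hxm : ∀ k : ℤ, Measurable fun z => ((π z k : ℝ) : ℂ) := fun k =>
    Complex.measurable_ofReal.comp (measurable_subtype_coe.comp ((measurable_pi_apply k).comp hext.fac.measurable))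
  have hSn : ∀ n : ℕ, Measurable (S^[n]) := fun n => hext.inv.measurable.iterate n
  have hpi : ∀ᵐ z ∂ρ, ∀ n : ℕ, ∀ k : ℤ, π (S^[n] z) k = π z (k + n) := by
    filter_upwards [ae_orbit hext.inv hext.eqv] with z hz n
    induction n with
    | zero => intro k; simp
    | succ n ih =>
      intro k
      rw [Function.iterate_succ_apply', hz n]
      show π (S^[n] z) (k + 1) = _
      rw [ih (k + 1)]
      congr 1
      push_cast
      ring
  have hint : ∀ n : ℕ, Integrable (fun z => ((π z n : ℝ) : ℂ) * u (S^[n] z)) ρ := by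
    intro n
    refine Integrable.of_bound ((hxm n).mul (hu.comp (hSn n))).aestronglyMeasurable 1 (Eventually.of_forall fun z => ?_)
    rw [norm_mul]
    calc _ ≤ (1 : ℝ) * 1 := mul_le_mul (val_le _ _) (hu1 _) (norm_nonneg _) zero_le_one
      _ = 1 := one_mul 1
  have h1 : ∀ n : ℕ, ∫ z, ((π z 0 : ℝ) : ℂ) * u z ∂ρ = ∫ z, ((π z n : ℝ) : ℂ) * u (S^[n] z) ∂ρ := by
    intro n
    have h3 : ∫ z, ((π z 0 : ℝ) : ℂ) * u z ∂ρ = ∫ z, ((π (S^[n] z) 0 : ℝ) : ℂ) * u (S^[n] z) ∂ρ := by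
      conv_lhs => rw [← (hext.inv.iterate n).map_eq]
      rw [integral_map (hSn n).aemeasurable]
      exact ((hxm 0).mul hu).aestronglyMeasurable
    rw [h3]
    apply integral_congr_ae
    filter_upwards [hpi] with z hz
    rw [hz n 0, zero_add]
  have h2 : (H : ℂ) * ∫ z, ((π z 0 : ℝ) : ℂ) * u z ∂ρ = ∫ z, ∑ h ∈ Icc 1 H, ((π z (h : ℤ) : ℝ) : ℂ) * u (S^[h] z) ∂ρ := by
    rw [integral_finsetSum _ fun h _ => hint h, ← Finset.sum_congr rfl fun h _ => h1 h, Finset.sum_const, Nat.card_Icc,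
      Nat.add_sub_cancel, nsmul_eq_mul]
  have h3 : (H : ℝ) * ‖∫ z, ((π z 0 : ℝ) : ℂ) * u z ∂ρ‖ = ‖∫ z, ∑ h ∈ Icc 1 H, ((π z (h : ℤ) : ℝ) : ℂ) * u (S^[h] z) ∂ρ‖ := by
    rw [← h2, norm_mul, Complex.norm_natCast]
  rw [h3, ← hext.fac.map_eq, integral_map hext.fac.measurable.aemeasurable (by rw [hext.fac.map_eq]; exact hGi.1)]
  refine norm_integral_le_of_norm_le ?_ ?_
  · have h4 : Integrable G (ρ.map π) := by rw [hext.fac.map_eq]; exact hGi
    exact h4.comp_measurable hext.fac.measurable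
  · filter_upwards [hgood] with z hz
    rcases hz with hz | ⟨c, hc0, hc1, ψ, hψ, hz⟩
    · rw [Finset.sum_eq_zero fun h _ => by rw [hz h, mul_zero], norm_zero]
      exact hG0 _
    · have h5 : ∑ h ∈ Icc 1 H, ((π z (h : ℤ) : ℝ) : ℂ) * u (S^[h] z) =
          c * ∑ h ∈ Icc 1 H, ((π z (h : ℤ) : ℝ) : ℂ) * ψ h := by
        rw [Finset.mul_sum]
        apply Finset.sum_congr rfl
        intro h _
        rw [hz h]
        ring
      rw [h5, norm_mul, Complex.norm_real, Real.norm_eq_abs, abs_of_nonneg hc0]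
      calc c * ‖∑ h ∈ Icc 1 H, ((π z (h : ℤ) : ℝ) : ℂ) * ψ h‖ ≤ 1 * G (π z) :=
            mul_le_mul hc1 (hGC _ _ hψ) (norm_nonneg _) zero_le_one
        _ = G (π z) := one_mul _

theorem aei : S_AEI := by
  intro Z _ ρ _ S hS M hM hMS
  have h1 : ρ (S ⁻¹' M \ M) = 0 := by
    have h2 : ρ (M \ S ⁻¹' M) = 0 := by
      rw [← compl_compl (M \ S ⁻¹' M)]
      have : ∀ᵐ z ∂ρ, z ∈ (M \ S ⁻¹' M)ᶜ := by
        filter_upwards [hMS] with z hz hz2
        exact hz2.2 (hz hz2.1)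
      exact this
    have h3 : ρ (S ⁻¹' M) = ρ M := hS.measure_preimage hM.nullMeasurableSet
    have hSM : MeasurableSet (S ⁻¹' M) := hS.measurable hM
    have h4 : ρ (S ⁻¹' M ∩ M) + ρ (S ⁻¹' M \ M) = ρ (S ⁻¹' M) := measure_inter_add_sdiff _ hM
    have h5 : ρ (M ∩ S ⁻¹' M) + ρ (M \ S ⁻¹' M) = ρ M := measure_inter_add_sdiff _ hSM
    rw [h2, add_zero, Set.inter_comm] at h5
    rw [h5, h3] at h4
    have h6 : ρ M ≠ ⊤ := measure_ne_top _ _
    have h7 : ρ M + ρ (S ⁻¹' M \ M) = ρ M + 0 := by rw [h4, add_zero]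
    exact (ENNReal.add_right_inj h6).1 h7
  have h8 : ∀ᵐ z ∂ρ, (S z ∈ M ↔ z ∈ M) := by
    have h9 : ∀ᵐ z ∂ρ, z ∉ S ⁻¹' M \ M := measure_eq_zero_iff_ae_notMem.1 h1
    filter_upwards [h9, hMS] with z hz1 hz2
    exact ⟨fun h => by_contra fun h' => hz1 ⟨h, h'⟩, hz2⟩
  filter_upwards [ae_orbit hS h8] with z hz n
  induction n with
  | zero => rfl
  | succ n ih => rw [Function.iterate_succ_apply', hz n, ih]

theorem reg : S_REG := by
  intro lam _ E hE η hη
  have h1 : MeasurableSet {y : UnitAddCircle | addOrderOf y = 0} := by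
    have h1 : {y : UnitAddCircle | addOrderOf y = 0} = (⋃ n : ℕ, {y : UnitAddCircle | (n + 1) • y = 0})ᶜ := by
      ext y
      rw [Set.mem_compl_iff, Set.mem_iUnion, not_exists]
      show addOrderOf y = 0 ↔ ∀ n : ℕ, ¬ (n + 1) • y = 0
      rw [addOrderOf_eq_zero_iff']
      constructor
      · intro h n
        exact h (n + 1) (Nat.succ_pos n)
      · intro h n hn
        obtain ⟨m, rfl⟩ : ∃ m, n = m + 1 := ⟨n - 1, by omega⟩
        exact h m
    rw [h1]
    refine (MeasurableSet.iUnion fun n => ?_).compl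
    exact ((continuous_nsmul (n + 1)).measurable) (measurableSet_singleton 0)
  have hE' : MeasurableSet {y ∈ E | addOrderOf y = 0} := hE.inter h1
  obtain ⟨K, hK, hKc, hKl⟩ := hE'.exists_isCompact_sdiff_lt (measure_ne_top lam _) (ENNReal.ofReal_pos.2 hη).ne'
  exact ⟨K, fun y hy => (hK hy).1, hKc, fun y hy => (hK hy).2, hKl⟩

end Pool.Agent.Helper42K9.AC
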