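import Pool.Agent.Helper42K9.AC.Stm

/-! Leaves CFP, DPC, TYP of the project AC (MP_4a7640_nt). -/

set_option autoImplicit false

namespace Pool.Agent.Helper42K9.AC

open Finset MeasureTheory Polynomial Filter Topology

namespace CfpL

lemma arg_lift (c t : ℝ) (hc : 0 < c) :
    (((Complex.arg ((c : ℂ) * Complex.exp (2 * Real.pi * Complex.I * (t : ℂ)))) / (2 * Real.pi) : ℝ) : UnitAddCircle) = (t : UnitAddCircle) := by
  have hpi := Real.pi_pos
  rw [Complex.arg_real_mul _ hc]
  have e1 : (2 * Real.pi * Complex.I * (t : ℂ)) = ((2 * Real.pi * t : ℝ) : ℂ) * Complex.I := by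
    push_cast
    ring
  rw [e1, Complex.arg_exp_mul_I]
  set k := toIocDiv Real.two_pi_pos (-Real.pi) (2 * Real.pi * t) with hk
  have e2 : toIocMod Real.two_pi_pos (-Real.pi) (2 * Real.pi * t) = 2 * Real.pi * t - k * (2 * Real.pi) := by
    unfold toIocMod
    rw [← hk, zsmul_eq_mul]
  have e3 : (2 * Real.pi * t - k * (2 * Real.pi)) / (2 * Real.pi) = t - k := by
    field_simp
  rw [e2, e3]
  have e4 : ((t - k : ℝ) : UnitAddCircle) = (t : UnitAddCircle) - ((k : ℝ) : UnitAddCircle) := rfl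
  have e5 : (((k : ℤ) : ℝ) : UnitAddCircle) = 0 := by
    rw [AddCircle.coe_eq_zero_iff]
    exact ⟨k, by simp⟩
  rw [e4, e5, sub_zero]

/-- Pascal's rule for differences in a commutative group -/
lemma pascal {G : Type*} [AddCommGroup G] (a : ℕ → G) (i : ℕ) :
    ∑ l ∈ range (i + 1), ((-1 : ℤ) ^ (i - l) * (i.choose l : ℤ)) • a (l + 1) =
      ∑ l ∈ range (i + 1), ((-1 : ℤ) ^ (i - l) * (i.choose l : ℤ)) • a l +
      ∑ l ∈ range (i + 2), ((-1 : ℤ) ^ (i + 1 - l) * ((i + 1).choose l : ℤ)) • a l := by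
  have h1 : ∀ (n : ℕ) (b : ℕ → G), ∑ l ∈ range (n + 1), ((-1 : ℤ) ^ (n - l) * (n.choose l : ℤ)) • b l =
      (fwdDiff (1 : ℕ))^[n] b 0 := by
    intro n b
    rw [fwdDiff_iter_eq_sum_shift]
    apply Finset.sum_congr rfl
    intro l _
    simp
  rw [h1 i (fun l => a (l + 1)), h1 i a, h1 (i + 1) a]
  rw [Function.iterate_succ_apply']
  have h2 : (fwdDiff (1 : ℕ))^[i] (fun l => a (l + 1)) 0 = (fwdDiff (1 : ℕ))^[i] a 1 := by
    rw [fwdDiff_iter_eq_sum_shift, fwdDiff_iter_eq_sum_shift]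
    apply Finset.sum_congr rfl
    intro l _
    simp [add_comm]
  rw [h2]
  simp [fwdDiff]

end CfpL

open CfpL

theorem cfp : S_CFP := by
  intro Z S u
  refine ⟨fun i z => ?_, fun z c P hc hP i => ?_⟩
  · unfold cf
    rw [← pascal (fun l => ph (u (S^[l] z))) i]
    apply Finset.sum_congr rfl
    intro l _
    rw [← Function.iterate_succ_apply]
  · unfold cf dp
    have h1 : ∀ t : ℕ, ph (u (S^[t] z)) = ((P.eval (t : ℝ) : ℝ) : UnitAddCircle) := by
      intro t
      unfold ph
      rw [hP t]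
      unfold e
      exact arg_lift c _ hc
    have h2 : ((∑ l ∈ range (i + 1), (-1 : ℝ) ^ (i - l) * (i.choose l : ℝ) * P.eval (l : ℝ) : ℝ) : UnitAddCircle) =
        ∑ l ∈ range (i + 1), (((-1 : ℝ) ^ (i - l) * (i.choose l : ℝ) * P.eval (l : ℝ) : ℝ) : UnitAddCircle) := by
      exact map_sum (QuotientAddGroup.mk' (AddSubgroup.zmultiples (1 : ℝ))) _ _
    rw [h2]
    apply Finset.sum_congr rfl
    intro l _
    rw [h1 l, ← AddCircle.coe_zsmul]
    congr 1
    rw [zsmul_eq_mul]
    push_cast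
    ring

namespace DpcL

/-- differences of the powers -/
def dpm (l i : ℕ) : ℤ := ∑ k ∈ range (i + 1), (-1 : ℤ) ^ (i - k) * (i.choose k : ℤ) * (k : ℤ) ^ l

lemma dpm_eq (l i : ℕ) : dpm l i = (fwdDiff (1 : ℤ))^[i] (fun r : ℤ => r ^ l) 0 := by
  unfold dpm
  rw [fwdDiff_iter_eq_sum_shift]
  apply Finset.sum_congr rfl
  intro k _
  simp

lemma dpm_lt {l i : ℕ} (h : l < i) : dpm l i = 0 := by
  rw [dpm_eq, fwdDiff_iter_pow_eq_zero_of_lt h]
  rfl

open Nat in
lemma dpm_self (i : ℕ) : dpm i i = (i ! : ℤ) := by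
  rw [dpm_eq, fwdDiff_iter_eq_factorial]
  rfl

lemma dp_lin (P : ℝ[X]) (i N : ℕ) (hN : P.natDegree < N) :
    dp P i = ∑ l ∈ range N, P.coeff l * (dpm l i : ℝ) := by
  unfold dp
  have h1 : ∀ k ∈ range (i + 1), (-1 : ℝ) ^ (i - k) * (i.choose k : ℝ) * P.eval (k : ℝ) =
      ∑ l ∈ range N, P.coeff l * ((-1 : ℝ) ^ (i - k) * (i.choose k : ℝ) * (k : ℝ) ^ l) := by
    intro k _
    rw [eval_eq_sum_range' hN, Finset.mul_sum]
    apply Finset.sum_congr rfl
    intro l _
    ring
  rw [Finset.sum_congr rfl h1, Finset.sum_comm]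
  apply Finset.sum_congr rfl
  intro l _
  rw [← Finset.mul_sum]
  congr 1
  unfold dpm
  push_cast
  rfl

lemma rat_of_not {x : ℝ} (h : ¬ Irrational x) : ∃ r : ℚ, x = r := by
  unfold Irrational at h
  push Not at h
  obtain ⟨r, hr⟩ := h
  exact ⟨r, hr.symm⟩

end DpcL

open DpcL Nat

theorem dpc : S_DPC := by
  intro P i
  refine ⟨fun h => ?_, fun h => ?_, fun h => ?_⟩
  · rw [dp_lin P i i h]
    apply Finset.sum_eq_zero
    intro l hl
    rw [dpm_lt (mem_range.1 hl)]
    simp
  · rw [dp_lin P i (i + 1) (by omega), Finset.sum_range_succ, Finset.sum_eq_zero, zero_add, dpm_self]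
    · push_cast
      ring
    · intro l hl
      rw [dpm_lt (mem_range.1 hl)]
      simp
  · have hr : ∀ l, ∃ r : ℚ, l > i → P.coeff l = r := by
      intro l
      by_cases hl : l > i
      · obtain ⟨r, hr⟩ := rat_of_not (h l hl)
        exact ⟨r, fun _ => hr⟩
      · exact ⟨0, fun h' => absurd h' hl⟩
    choose r hr using hr
    refine ⟨∑ l ∈ Ico (i + 1) (P.natDegree + i + 1), r l * (dpm l i : ℚ), ?_⟩
    rw [dp_lin P i (P.natDegree + i + 1) (by omega), ← Finset.sum_range_add_sum_Ico _ (show i + 1 ≤ P.natDegree + i + 1 by omega),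
      Finset.sum_range_succ, Finset.sum_eq_zero, zero_add, dpm_self]
    · congr 1
      · push_cast
        ring
      · push_cast
        apply Finset.sum_congr rfl
        intro l hl
        rw [hr l (by have := (mem_Ico.1 hl).1; omega)]
    · intro l hl
      rw [dpm_lt (mem_range.1 hl)]
      simp

theorem typ (hD : S_DPC) : S_TYP := by
  classical
  intro P
  have key : ∃ j : ℕ, j ≤ P.natDegree ∧ (∀ l > j, ¬ Irrational (P.coeff l)) ∧ (1 ≤ j → Irrational (P.coeff j)) := by
    by_cases hs : ((range (P.natDegree + 1)).filter (fun l => 1 ≤ l ∧ Irrational (P.coeff l))).Nonempty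
    · refine ⟨((range (P.natDegree + 1)).filter (fun l => 1 ≤ l ∧ Irrational (P.coeff l))).max' hs, ?_, ?_, ?_⟩
      · have := Finset.max'_mem _ hs
        rw [mem_filter, mem_range] at this
        omega
      · intro l hl hirr
        have h1 : l ∈ (range (P.natDegree + 1)).filter (fun l => 1 ≤ l ∧ Irrational (P.coeff l)) := by
          rw [mem_filter, mem_range]
          refine ⟨?_, ?_, hirr⟩
          · by_contra hlt
            rw [coeff_eq_zero_of_natDegree_lt (by omega)] at hirr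
            exact hirr ⟨0, by simp⟩
          · omega
        have h2 := Finset.le_max' _ l h1
        omega
      · intro _
        have := Finset.max'_mem _ hs
        rw [mem_filter] at this
        exact this.2.2
    · refine ⟨0, Nat.zero_le _, ?_, fun h => absurd h (by omega)⟩
      intro l hl hirr
      apply hs
      refine ⟨l, ?_⟩
      rw [mem_filter, mem_range]
      refine ⟨?_, hl, hirr⟩
      by_contra hlt
      rw [coeff_eq_zero_of_natDegree_lt (by omega)] at hirr
      exact hirr ⟨0, by simp⟩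
  obtain ⟨j, hj1, hj2, hj3⟩ := key
  have hrat : ∀ i, ∃ r : ℚ, i > j → dp P i = r := by
    intro i
    by_cases hi : i > j
    · obtain ⟨r, hr⟩ := (hD P i).2.2 (fun l hl => hj2 l (by omega))
      obtain ⟨s, hs⟩ := rat_of_not (hj2 i hi)
      refine ⟨(i ! : ℚ) * s + r, fun _ => ?_⟩
      rw [hr, hs]
      push_cast
      ring
    · exact ⟨0, fun h' => absurd h' hi⟩
  choose r hr using hrat
  refine ⟨j, ∏ i ∈ range (P.natDegree + 1), (r i).den, P.natDegree, ?_, hj1, ?_, ?_, ?_⟩
  · exact Nat.one_le_iff_ne_zero.2 (Finset.prod_ne_zero_iff.2 fun i _ => (r i).den_nz)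
  · intro i hi
    by_cases hid : i ≤ P.natDegree
    · have h1 : (r i).den ∣ ∏ i ∈ range (P.natDegree + 1), (r i).den := Finset.dvd_prod_of_mem _ (mem_range.2 (by omega))
      obtain ⟨b, hb⟩ := h1
      refine ⟨(r i).num * b, ?_⟩
      rw [hr i hi, hb]
      have h2 : ((r i : ℚ) : ℝ) * ((r i).den : ℝ) = ((r i).num : ℝ) := by
        exact_mod_cast Rat.mul_den_eq_num (r i)
      push_cast
      rw [← h2]
      ring
    · refine ⟨0, ?_⟩
      rw [(hD P i).1 (by omega)]
      simp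
  · intro i hi
    exact (hD P i).1 hi
  · intro h1
    refine ⟨?_, hj3 h1, hj2⟩
    obtain ⟨s, hs⟩ := (hD P j).2.2 hj2
    rw [hs]
    exact ((hj3 h1).natCast_mul (Nat.factorial_ne_zero j)).add_ratCast s

end Pool.Agent.Helper42K9.AC
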