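import Pool.Agent.Helper42K9.AC.Stm

/-! Leaves CLM and RAT of the project AC (MP_4a7640_nt). -/

set_option autoImplicit false

namespace Pool.Agent.Helper42K9.AC

open Finset MeasureTheory Polynomial Filter Topology

namespace ClmL

lemma ph_meas : Measurable ph :=
  (AddCircle.continuous_mk' (1 : ℝ)).measurable.comp (Complex.measurable_arg.div_const _)

lemma cf_meas {Z : Type} [MeasurableSpace Z] {S : Z → Z} (hS : Measurable S) {u : Z → ℂ} (hu : Measurable u) (i : ℕ) :
    Measurable (cf S u i) := by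
  unfold cf
  refine Finset.measurable_sum _ fun l _ => ?_
  exact (continuous_zsmul _).measurable.comp (ph_meas.comp (hu.comp (hS.iterate l)))

lemma tf_meas : MeasurableSet {y : UnitAddCircle | addOrderOf y = 0} := by
  have h1 : {y : UnitAddCircle | addOrderOf y = 0} = (⋃ n : ℕ, {y : UnitAddCircle | (n + 1) • y = 0})ᶜ := by
    ext y
    simp only [Set.mem_setOf_eq, Set.mem_compl_iff, Set.mem_iUnion, not_exists]
    rw [addOrderOf_eq_zero_iff']
    constructor
    · intro h n
      exact h (n + 1) (Nat.succ_pos n)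
    · intro h n hn
      obtain ⟨m, rfl⟩ : ∃ m, n = m + 1 := ⟨n - 1, by omega⟩
      exact h m
  rw [h1]
  refine (MeasurableSet.iUnion fun n => ?_).compl
  exact ((continuous_nsmul (n + 1)).measurable) (measurableSet_singleton 0)

/-- irrational numbers are not torsion modulo one -/
lemma irr_tf {t : ℝ} (ht : Irrational t) {m : ℕ} (hm : 1 ≤ m) : addOrderOf (m • (t : UnitAddCircle)) = 0 := by
  by_contra hne
  have h1 : 0 < addOrderOf (m • (t : UnitAddCircle)) := Nat.pos_of_ne_zero hne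
  have h2 := addOrderOf_nsmul_eq_zero (m • (t : UnitAddCircle))
  rw [← mul_nsmul', ← AddCircle.coe_nsmul, AddCircle.coe_eq_zero_iff] at h2
  obtain ⟨k, hk⟩ := h2
  have h3 : addOrderOf (m • (t : UnitAddCircle)) * m ≠ 0 := Nat.mul_ne_zero hne (by omega)
  apply ht
  refine ⟨(k : ℚ) / ((addOrderOf (m • (t : UnitAddCircle)) * m : ℕ) : ℚ), ?_⟩
  push_cast
  rw [div_eq_iff (by exact_mod_cast h3)]
  simp only [zsmul_eq_mul, mul_one, nsmul_eq_mul] at hk
  rw [hk]
  push_cast
  ring

lemma coe_int_zero (m : ℤ) : ((m : ℝ) : UnitAddCircle) = 0 := by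
  rw [AddCircle.coe_eq_zero_iff]
  exact ⟨m, by simp⟩

lemma norm_e (t : ℝ) : ‖e t‖ = 1 := by
  unfold e
  have e1 : (2 * Real.pi * Complex.I * (t : ℂ)) = ((2 * Real.pi * t : ℝ) : ℂ) * Complex.I := by
    push_cast
    ring
  rw [e1, Complex.norm_exp_ofReal_mul_I]

/-- good points: the invariants along the orbit -/
lemma kap_inv (hCFP : S_CFP) {Z : Type} {S : Z → Z} {u : Z → ℂ} {z : Z} {c : ℝ} {P : ℝ[X]} (hc : 0 < c)
    (hP : ∀ n : ℕ, u (S^[n] z) = c * e (P.eval (n : ℝ))) {j q : ℕ}
    (hq : ∀ i > j, ∃ m : ℤ, (q : ℝ) * dp P i = m) (b n : ℕ) :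
    (∀ i > j, q • cf S u i (S^[n] z) = 0) ∧ (q * b) • cf S u j (S^[n] z) = (q * b) • ((dp P j : ℝ) : UnitAddCircle) := by
  obtain ⟨h1, h2⟩ := hCFP Z S u
  have h3 := h2 z c P hc hP
  induction n with
  | zero =>
    simp only [Function.iterate_zero, id_eq]
    refine ⟨fun i hi => ?_, by rw [h3]⟩
    rw [h3, ← AddCircle.coe_nsmul, nsmul_eq_mul]
    obtain ⟨m, hm⟩ := hq i hi
    rw [hm]
    exact coe_int_zero m
  | succ n ih =>
    obtain ⟨ih1, ih2⟩ := ih
    rw [Function.iterate_succ_apply']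
    refine ⟨fun i hi => ?_, ?_⟩
    · rw [h1, nsmul_add, ih1 i hi, ih1 (i + 1) (by omega), add_zero]
    · rw [h1, nsmul_add, ih2, mul_comm q b, mul_nsmul' (cf S u (j + 1) (S^[n] z)) b q, ih1 (j + 1) (by omega), nsmul_zero,
        add_zero]

end ClmL

open ClmL Nat

theorem clm (hFUR : S_FUR) (hABS : S_ABS) (hNEW : S_NEW) (hCFP : S_CFP) (hPRE : S_PRE) (hREG : S_REG) : S_CLM := by
  intro j hj
  obtain ⟨A, hA, hF⟩ := hFUR j hj
  refine ⟨A, hA, ?_⟩
  intro f hf μ hμ Z _ ρ _ S π hext q d E hq hjd hE u hu hu1 hgood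
  have hA0 : (0 : ℝ) < A := by exact_mod_cast hA
  have hSm : Measurable S := hext.inv.measurable
  have hm1 : 1 ≤ q * (d ! / j !) := by
    have h1 : j ! ≤ d ! := Nat.factorial_le hjd
    have h2 : 1 ≤ d ! / j ! := (Nat.one_le_div_iff (Nat.factorial_pos j)).2 h1
    exact Nat.one_le_iff_ne_zero.2 (Nat.mul_ne_zero (by omega) (by omega))
  have hdvd : j ! * (d ! / j !) = d ! := Nat.mul_div_cancel' (Nat.factorial_dvd_factorial hjd)
  have hqd : 1 ≤ q * d ! := Nat.one_le_iff_ne_zero.2 (Nat.mul_ne_zero (by omega) (Nat.factorial_ne_zero d))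
  set κ : Z → UnitAddCircle := fun z => (q * (d ! / j !)) • cf S u j z with hκ
  have hκm : Measurable κ := (continuous_nsmul _).measurable.comp (cf_meas hSm hu j)
  set E' : Set UnitAddCircle := {y ∈ E | addOrderOf y = 0} with hE'
  have hE'm : MeasurableSet E' := hE.inter tf_meas
  refine le_of_forall_pos_le_add fun ε hε => ?_
  obtain ⟨K, hKE, hKc, hKt, hKl⟩ := hREG (ρ.map κ) E hE (ε / 2) (by positivity)
  have hKm : MeasurableSet K := hKc.isClosed.measurableSet
  rw [Measure.map_apply hκm (hE'm.diff hKm)] at hKl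
  obtain ⟨hKc', hKv, hKs, hKi⟩ := hPRE (q * d !) K hqd hKc hKt
  obtain ⟨H, G, hH, hGi, hG0, hGC, hGb⟩ := hF f hf μ hμ (q * d !) {y | (q * d !) • y ∈ K} hqd hKc'
    (fun t ht => hKi t ht) (fun y hy => hKs y hy) (ε / 2) (by positivity)
  set v : Z → ℂ := (κ ⁻¹' K).indicator u with hv
  have hvm : Measurable v := hu.indicator (hκm hKm)
  have hv1 : ∀ z, ‖v z‖ ≤ 1 := by
    intro z
    rw [hv]
    by_cases hz : z ∈ κ ⁻¹' K
    · rw [Set.indicator_of_mem hz]; exact hu1 z
    · rw [Set.indicator_of_notMem hz, norm_zero]; exact zero_le_one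
  have hABS' := hABS Z ρ S π μ hext (Cls j (q * d !) {y | (q * d !) • y ∈ K}) H G hH hGi hG0 hGC v hvm hv1 (by
    filter_upwards [hgood] with z hz
    obtain ⟨c, P, hc0, hP, hcP⟩ := hz
    rcases hc0.lt_or_eq with hc | hc
    · obtain ⟨h1, h2, h3, h4⟩ := hcP hc
      have h5 := fun n => (kap_inv hCFP hc hP h1 (d ! / j !) n).2
      by_cases hz : κ z ∈ K
      · right
        have hu0 : ‖u z‖ = c := by
          have := hP 0
          simp only [Function.iterate_zero, id_eq] at this
          rw [this, norm_mul, norm_e, mul_one, Complex.norm_real, Real.norm_eq_abs, abs_of_pos hc]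
        refine ⟨c, hc0, hu0 ▸ hu1 z, fun n : ℕ => e (P.eval (n : ℝ)), ?_, ?_⟩
        · refine hNEW P j q d hq hjd h1 h2 _ ?_
          show (q * d !) • ((dp P j / (j ! : ℝ) : ℝ) : UnitAddCircle) ∈ K
          have h6 : (q * d !) • ((dp P j / (j ! : ℝ) : ℝ) : UnitAddCircle) =
              (q * (d ! / j !)) • ((dp P j : ℝ) : UnitAddCircle) := by
            rw [← AddCircle.coe_nsmul, ← AddCircle.coe_nsmul]
            congr 1
            rw [nsmul_eq_mul, nsmul_eq_mul]
            have h7 : ((j ! : ℕ) : ℝ) ≠ 0 := by exact_mod_cast Nat.factorial_ne_zero j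
            have h8 : ((q * d ! : ℕ) : ℝ) = (j ! : ℝ) * ((q * (d ! / j !) : ℕ) : ℝ) := by
              rw [← Nat.cast_mul]
              congr 1
              calc q * d ! = q * (j ! * (d ! / j !)) := by rw [hdvd]
                _ = _ := by ring
            rw [h8]
            field_simp
          rw [h6]
          have h9 := h5 0
          simp only [Function.iterate_zero, id_eq] at h9
          rw [← h9]
          exact hz
        · intro n
          have h9 := h5 0
          simp only [Function.iterate_zero, id_eq] at h9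
          have h10 : S^[n] z ∈ κ ⁻¹' K := by
            show κ (S^[n] z) ∈ K
            rw [hκ] at hz ⊢
            simp only at hz ⊢
            rw [h5 n, ← h9]
            exact hz
          rw [hv, Set.indicator_of_mem h10, hP n]
      · left
        intro n
        have h9 := h5 0
        simp only [Function.iterate_zero, id_eq] at h9
        have h10 : S^[n] z ∉ κ ⁻¹' K := by
          show κ (S^[n] z) ∉ K
          rw [hκ] at hz ⊢
          simp only at hz ⊢
          rw [h5 n, ← h9]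
          exact hz
        rw [hv, Set.indicator_of_notMem h10]
    · left
      intro n
      rw [hv]
      by_cases h10 : S^[n] z ∈ κ ⁻¹' K
      · rw [Set.indicator_of_mem h10, hP n, ← hc]; simp
      · rw [Set.indicator_of_notMem h10])
  have hH0 : (0 : ℝ) < H := by exact_mod_cast hH
  have h1 : ‖∫ z, ((π z 0 : ℝ) : ℂ) * v z ∂ρ‖ ≤
      ((q * d ! : ℕ) : ℝ) * A * (volume K).toReal ^ (1 / (A : ℝ)) + ε / 2 := by
    have h2 := hABS'.trans hGb
    rw [hKv, mul_comm (H : ℝ)] at h2
    exact le_of_mul_le_mul_right h2 hH0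
  have h2 : (volume K).toReal ^ (1 / (A : ℝ)) ≤ (volume E).toReal ^ (1 / (A : ℝ)) := by
    apply Real.rpow_le_rpow ENNReal.toReal_nonneg _ (by positivity)
    exact ENNReal.toReal_mono (measure_ne_top _ _) (measure_mono hKE)
  have hx1 : ∀ z, ‖((π z 0 : ℝ) : ℂ)‖ ≤ 1 := by
    intro z
    rw [Complex.norm_real, Real.norm_eq_abs]
    have h := (π z 0).2
    simp only [Set.mem_insert_iff, Set.mem_singleton_iff] at h
    rcases h with h | h | h <;> rw [h] <;> simp
  have hxm : Measurable fun z => ((π z 0 : ℝ) : ℂ) :=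
    Complex.measurable_ofReal.comp (measurable_subtype_coe.comp ((measurable_pi_apply 0).comp hext.fac.measurable))
  have hiu : ∀ w : Z → ℂ, Measurable w → (∀ z, ‖w z‖ ≤ 1) → Integrable (fun z => ((π z 0 : ℝ) : ℂ) * w z) ρ := by
    intro w hw hw1
    refine Integrable.of_bound (hxm.mul hw).aestronglyMeasurable 1 (Eventually.of_forall fun z => ?_)
    rw [norm_mul]
    calc _ ≤ (1 : ℝ) * 1 := mul_le_mul (hx1 z) (hw1 z) (norm_nonneg _) zero_le_one
      _ = 1 := one_mul 1
  have h3 : ‖∫ z, ((π z 0 : ℝ) : ℂ) * u z ∂ρ - ∫ z, ((π z 0 : ℝ) : ℂ) * v z ∂ρ‖ ≤ ε / 2 := by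
    rw [← integral_sub (hiu u hu hu1) (hiu v hvm hv1)]
    have h4 : ‖∫ z, (((π z 0 : ℝ) : ℂ) * u z - ((π z 0 : ℝ) : ℂ) * v z) ∂ρ‖ ≤
        ∫ z, (κ ⁻¹' (E' \ K)).indicator (fun _ => (1 : ℝ)) z ∂ρ := by
      refine norm_integral_le_of_norm_le ?_ ?_
      · exact (integrable_const (1 : ℝ)).indicator (hκm (hE'm.diff hKm))
      · filter_upwards [hgood] with z hz
        obtain ⟨c, P, hc0, hP, hcP⟩ := hz
        have hP0 := hP 0
        simp only [Function.iterate_zero, id_eq] at hP0
        rw [← mul_sub, norm_mul]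
        by_cases hzK : z ∈ κ ⁻¹' K
        · rw [hv, Set.indicator_of_mem hzK, sub_self, norm_zero, mul_zero]
          exact Set.indicator_nonneg (fun _ _ => zero_le_one) z
        · rw [hv, Set.indicator_of_notMem hzK, sub_zero]
          rcases hc0.lt_or_eq with hc | hc
          · obtain ⟨h5, h6, h7, h8⟩ := hcP hc
            have h9 := (kap_inv hCFP hc hP h5 (d ! / j !) 0).2
            simp only [Function.iterate_zero, id_eq] at h9
            have h10 : κ z = (q * (d ! / j !)) • ((dp P j : ℝ) : UnitAddCircle) := h9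
            have h11 : z ∈ κ ⁻¹' (E' \ K) := by
              refine ⟨⟨?_, ?_⟩, hzK⟩
              · show κ z ∈ E
                rw [h10]; exact h8
              · show addOrderOf (κ z) = 0
                rw [h10]; exact irr_tf h7 hm1
            rw [Set.indicator_of_mem h11]
            calc _ ≤ (1 : ℝ) * 1 := mul_le_mul (hx1 z) (hu1 z) (norm_nonneg _) zero_le_one
              _ = 1 := one_mul 1
          · rw [hP0, ← hc]
            simp only [Complex.ofReal_zero, zero_mul, norm_zero, mul_zero]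
            exact Set.indicator_nonneg (fun _ _ => zero_le_one) z
    refine h4.trans ?_
    rw [integral_indicator_const _ (hκm (hE'm.diff hKm)), smul_eq_mul, mul_one]
    exact ENNReal.toReal_le_of_le_ofReal (by positivity) hKl.le
  have h5 : ‖∫ z, ((π z 0 : ℝ) : ℂ) * u z ∂ρ‖ ≤ ‖∫ z, ((π z 0 : ℝ) : ℂ) * v z ∂ρ‖ + ε / 2 := by
    have h6 := norm_sub_norm_le (∫ z, ((π z 0 : ℝ) : ℂ) * u z ∂ρ) (∫ z, ((π z 0 : ℝ) : ℂ) * v z ∂ρ)
    linarith
  have h6 : ((q * d ! : ℕ) : ℝ) * A * (volume K).toReal ^ (1 / (A : ℝ)) ≤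
      ((q * d ! : ℕ) : ℝ) * A * (volume E).toReal ^ (1 / (A : ℝ)) :=
    mul_le_mul_of_nonneg_left h2 (by positivity)
  linarith

end Pool.Agent.Helper42K9.AC
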