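import Pool.Agent.Helper42K9.AC.Clm

/-! Leaf FIN of the project AC (MP_4a7640_nt): decomposition into countably many invariant sets. -/

set_option autoImplicit false

namespace Pool.Agent.Helper42K9.AC

open Finset MeasureTheory Polynomial Filter Topology
open ClmL Nat

namespace FinL

lemma tors_add {a b : UnitAddCircle} {q : ℕ} (hq : 1 ≤ q) (ha : addOrderOf a = 0) (hb : q • b = 0) :
    addOrderOf (a + b) = 0 := by
  rw [addOrderOf_eq_zero_iff'] at ha ⊢
  intro n hn h
  apply ha (n * q) (Nat.mul_pos hn (by omega))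
  have h1 : (n * q) • (a + b) = 0 := by rw [mul_comm, mul_nsmul', h, nsmul_zero]
  rw [nsmul_add, mul_nsmul' b n q, hb, nsmul_zero, add_zero] at h1
  exact h1

lemma int_of_zero {q : ℕ} {t : ℝ} (h : q • (t : UnitAddCircle) = 0) : ∃ m : ℤ, (q : ℝ) * t = m := by
  rw [← AddCircle.coe_nsmul, AddCircle.coe_eq_zero_iff] at h
  obtain ⟨m, hm⟩ := h
  refine ⟨m, ?_⟩
  rw [nsmul_eq_mul, zsmul_eq_mul, mul_one] at hm
  exact hm.symm

lemma zero_of_int {q : ℕ} {t : ℝ} {m : ℤ} (h : (q : ℝ) * t = m) : q • (t : UnitAddCircle) = 0 := by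
  rw [← AddCircle.coe_nsmul, nsmul_eq_mul, h]
  exact coe_int_zero m

lemma not_irr_of_int {q : ℕ} (hq : 1 ≤ q) {t : ℝ} {m : ℤ} (h : (q : ℝ) * t = m) : ¬ Irrational t := by
  intro ht
  apply ht
  refine ⟨(m : ℚ) / (q : ℚ), ?_⟩
  have h1 : (q : ℝ) ≠ 0 := by exact_mod_cast (show q ≠ 0 by omega)
  push_cast
  rw [← h]
  field_simp

lemma irr_of_tf {t : ℝ} (h : addOrderOf (t : UnitAddCircle) = 0) : Irrational t := by
  by_contra hirr
  unfold Irrational at hirr
  push Not at hirr
  obtain ⟨r, hr⟩ := hirr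
  rw [addOrderOf_eq_zero_iff'] at h
  apply h r.den r.den_pos
  apply zero_of_int (m := r.num)
  rw [← hr, mul_comm]
  exact_mod_cast Rat.mul_den_eq_num r

/-- the sets of the decomposition -/
def A {Z : Type} (S : Z → Z) (u : Z → ℂ) (k : ℕ × ℕ × ℕ) : Set Z :=
  {z | u z ≠ 0 ∧ (∀ i > k.1, (k.2.1 + 1) • cf S u i z = 0) ∧ (∀ i > k.2.2, cf S u i z = 0) ∧
    (1 ≤ k.1 → addOrderOf (cf S u k.1 z) = 0) ∧ k.1 ≤ k.2.2}

lemma A_meas {Z : Type} [MeasurableSpace Z] {S : Z → Z} (hS : Measurable S) {u : Z → ℂ} (hu : Measurable u)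
    (k : ℕ × ℕ × ℕ) : MeasurableSet (A S u k) := by
  have h1 : ∀ i, Measurable (cf S u i) := fun i => cf_meas hS hu i
  have e1 : A S u k = (u ⁻¹' {0})ᶜ ∩ ((⋂ i : ℕ, ⋂ _ : i > k.1, (cf S u i) ⁻¹' {y | (k.2.1 + 1) • y = 0}) ∩
      ((⋂ i : ℕ, ⋂ _ : i > k.2.2, (cf S u i) ⁻¹' {0}) ∩
      ((⋂ _ : 1 ≤ k.1, (cf S u k.1) ⁻¹' {y | addOrderOf y = 0}) ∩ ⋂ _ : ¬ k.1 ≤ k.2.2, (∅ : Set Z)))) := by
    ext z
    simp only [Set.mem_inter_iff, Set.mem_iInter, Set.mem_compl_iff, Set.mem_preimage, Set.mem_singleton_iff,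
      Set.mem_empty_iff_false, imp_false, not_not]
    rfl
  rw [e1]
  have h2 : MeasurableSet {y : UnitAddCircle | (k.2.1 + 1) • y = 0} :=
    (continuous_nsmul (k.2.1 + 1)).measurable (measurableSet_singleton 0)
  refine (hu (measurableSet_singleton 0)).compl.inter ((MeasurableSet.iInter fun i => MeasurableSet.iInter fun _ => h1 i h2).inter
    ((MeasurableSet.iInter fun i => MeasurableSet.iInter fun _ => h1 i (measurableSet_singleton 0)).inter
    ((MeasurableSet.iInter fun _ => h1 _ tf_meas).inter (MeasurableSet.iInter fun _ => MeasurableSet.empty))))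

end FinL

open FinL

theorem fin (hCLM : S_CLM) (hRAT : S_RAT) (hTYP : S_TYP) (hDPC : S_DPC) (hCFP : S_CFP) (hNUL : S_NUL) (hAEI : S_AEI) :
    S_FIN := by
  intro f hf ha μ hμ Z _ ρ _ S π hext E hE u hu hu1 hgood
  obtain ⟨F, hFm, hF0, hF⟩ := hNUL E hE
  have hSm : Measurable S := hext.inv.measurable
  obtain ⟨hC1, hC2⟩ := hCFP Z S u
  -- norm along the orbit
  have hnorm : ∀ (z : Z) (c : ℝ) (P : ℝ[X]), 0 ≤ c → (∀ n : ℕ, u (S^[n] z) = c * e (P.eval (n : ℝ))) → ∀ n, ‖u (S^[n] z)‖ = c := by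
    intro z c P hc hP n
    rw [hP n, norm_mul, norm_e, mul_one, Complex.norm_real, Real.norm_eq_abs, abs_of_nonneg hc]
  -- forward invariance
  have hfor : ∀ k, ∀ᵐ z ∂ρ, z ∈ A S u k → S z ∈ A S u k := by
    intro k
    filter_upwards [hgood] with z hz hzA
    obtain ⟨c, P, hc0, hP, -⟩ := hz
    obtain ⟨h1, h2, h3, h4, h5⟩ := hzA
    refine ⟨?_, ?_, ?_, ?_, h5⟩
    · intro h6
      have h7 := hnorm z c P hc0 hP 1
      have h8 := hnorm z c P hc0 hP 0
      simp only [Function.iterate_one, Function.iterate_zero, id_eq] at h7 h8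
      rw [h6, norm_zero] at h7
      rw [← h7, norm_eq_zero] at h8
      exact h1 h8
    · intro i hi
      rw [hC1, nsmul_add, h2 i hi, h2 (i + 1) (by omega), add_zero]
    · intro i hi
      rw [hC1, h3 i hi, h3 (i + 1) (by omega), add_zero]
    · intro hk
      rw [hC1]
      exact tors_add (by omega) (h4 hk) (h2 (k.1 + 1) (by omega))
  obtain ⟨g, hg⟩ := exists_surjective_nat (ℕ × ℕ × ℕ)
  have hinv : ∀ᵐ z ∂ρ, ∀ (k n : ℕ), (S^[n] z ∈ A S u (g k) ↔ z ∈ A S u (g k)) := by
    rw [ae_all_iff]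
    intro k
    exact hAEI Z ρ S hext.inv _ (A_meas hSm hu _) (hfor _)
  set M : ℕ → Set Z := fun k => {z | z ∈ A S u (g k) ∧ ∀ l < k, z ∉ A S u (g l)} with hM
  have hMm : ∀ k, MeasurableSet (M k) := by
    intro k
    have e1 : M k = A S u (g k) ∩ ⋂ l : ℕ, ⋂ _ : l < k, (A S u (g l))ᶜ := by
      ext z
      simp only [hM, Set.mem_inter_iff, Set.mem_iInter, Set.mem_compl_iff]
      rfl
    rw [e1]
    exact (A_meas hSm hu _).inter (MeasurableSet.iInter fun l => MeasurableSet.iInter fun _ => (A_meas hSm hu _).compl)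
  have hMinv : ∀ᵐ z ∂ρ, ∀ (k n : ℕ), (S^[n] z ∈ M k ↔ z ∈ M k) := by
    filter_upwards [hinv] with z hz k n
    show (S^[n] z ∈ A S u (g k) ∧ ∀ l < k, S^[n] z ∉ A S u (g l)) ↔ (z ∈ A S u (g k) ∧ ∀ l < k, z ∉ A S u (g l))
    rw [hz k n]
    constructor
    · rintro ⟨h1, h2⟩
      exact ⟨h1, fun l hl h3 => h2 l hl ((hz l n).2 h3)⟩
    · rintro ⟨h1, h2⟩
      exact ⟨h1, fun l hl h3 => h2 l hl ((hz l n).1 h3)⟩
  have hMdis : Pairwise (Function.onFun Disjoint M) := by
    intro k l hkl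
    rw [Function.onFun, Set.disjoint_left]
    rintro z ⟨h1, h2⟩ ⟨h3, h4⟩
    rcases lt_or_gt_of_ne hkl with h | h
    · exact h4 k h h1
    · exact h2 l h h3
  -- covering
  have hcov : ∀ᵐ z ∂ρ, z ∉ (⋃ k, M k) → ((π z 0 : ℝ) : ℂ) * u z = 0 := by
    filter_upwards [hgood] with z hz hzM
    obtain ⟨c, P, hc0, hP, -⟩ := hz
    by_contra hne
    have hu0 : u z ≠ 0 := fun h => hne (by rw [h, mul_zero])
    have hc : 0 < c := by
      rcases hc0.lt_or_eq with hc | hc
      · exact hc
      · exfalso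
        have := hP 0
        simp only [Function.iterate_zero, id_eq] at this
        rw [← hc] at this
        apply hu0
        rw [this]
        simp
    have h3 := hC2 z c P hc hP
    obtain ⟨j, q, d, hq, hjd, h4, h5, h6⟩ := hTYP P
    have hzA : z ∈ A S u (j, q - 1, d) := by
      refine ⟨hu0, ?_, ?_, ?_, hjd⟩
      · intro i hi
        show (q - 1 + 1) • cf S u i z = 0
        rw [h3, Nat.sub_add_cancel hq]
        obtain ⟨m, hm⟩ := h4 i hi
        exact zero_of_int hm
      · intro i hi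
        show cf S u i z = 0
        rw [h3, h5 i hi]
        rfl
      · intro hj
        show addOrderOf (cf S u j z) = 0
        rw [h3]
        have := irr_tf (h6 hj).1 (le_refl 1)
        rwa [one_nsmul] at this
    obtain ⟨k, hk⟩ := hg (j, q - 1, d)
    classical
    have hex : ∃ k, z ∈ A S u (g k) := ⟨k, by rw [hk]; exact hzA⟩
    apply hzM
    rw [Set.mem_iUnion]
    exact ⟨Nat.find hex, Nat.find_spec hex, fun l hl => Nat.find_min hex hl⟩
  have hxm : Measurable fun z => ((π z 0 : ℝ) : ℂ) :=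
    Complex.measurable_ofReal.comp (measurable_subtype_coe.comp ((measurable_pi_apply 0).comp hext.fac.measurable))
  have hx1 : ∀ z, ‖((π z 0 : ℝ) : ℂ)‖ ≤ 1 := by
    intro z
    rw [Complex.norm_real, Real.norm_eq_abs]
    have h := (π z 0).2
    simp only [Set.mem_insert_iff, Set.mem_singleton_iff] at h
    rcases h with h | h | h <;> rw [h] <;> simp
  have hint : Integrable (fun z => ((π z 0 : ℝ) : ℂ) * u z) ρ := by
    refine Integrable.of_bound (hxm.mul hu).aestronglyMeasurable 1 (Eventually.of_forall fun z => ?_)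
    rw [norm_mul]
    calc _ ≤ (1 : ℝ) * 1 := mul_le_mul (hx1 z) (hu1 z) (norm_nonneg _) zero_le_one
      _ = 1 := one_mul 1
  rw [← setIntegral_eq_integral_of_ae_compl_eq_zero hcov]
  have hsum := hasSum_integral_iUnion hMm hMdis (hint.integrableOn (s := ⋃ k, M k))
  have hzero : ∀ k, ∫ z in M k, ((π z 0 : ℝ) : ℂ) * u z ∂ρ = 0 := by
    intro k
    set v : Z → ℂ := (M k).indicator u with hv
    have hvm : Measurable v := hu.indicator (hMm k)
    have hv1 : ∀ z, ‖v z‖ ≤ 1 := by
      intro z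
      rw [hv]
      by_cases hz : z ∈ M k
      · rw [Set.indicator_of_mem hz]; exact hu1 z
      · rw [Set.indicator_of_notMem hz, norm_zero]; exact zero_le_one
    have e1 : ∫ z in M k, ((π z 0 : ℝ) : ℂ) * u z ∂ρ = ∫ z, ((π z 0 : ℝ) : ℂ) * v z ∂ρ := by
      rw [← integral_indicator (hMm k)]
      apply integral_congr_ae
      filter_upwards with z
      by_cases hz : z ∈ M k
      · rw [Set.indicator_of_mem hz, hv, Set.indicator_of_mem hz]
      · rw [Set.indicator_of_notMem hz, hv, Set.indicator_of_notMem hz, mul_zero]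
    rw [e1]
    obtain ⟨⟨j, q, d⟩, hk⟩ : ∃ t, g k = t := ⟨g k, rfl⟩
    by_cases hjd : j ≤ d
    · -- common properties of the good points
      have hgv : ∀ᵐ z ∂ρ, ∃ (c : ℝ) (P : ℝ[X]), 0 ≤ c ∧ (∀ n : ℕ, v (S^[n] z) = c * e (P.eval (n : ℝ))) ∧
          (0 < c → (∀ i > j, ∃ m : ℤ, ((q + 1 : ℕ) : ℝ) * dp P i = m) ∧ (∀ i > d, ∃ m : ℤ, dp P i = m) ∧
            (1 ≤ j → Irrational (dp P j) ∧ TopIn E P)) := by
        filter_upwards [hgood, hMinv] with z hz hzinv
        obtain ⟨c, P, hc0, hP, hcP⟩ := hz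
        by_cases hzM : z ∈ M k
        · refine ⟨c, P, hc0, fun n => ?_, fun hc => ?_⟩
          · rw [hv, Set.indicator_of_mem ((hzinv k n).2 hzM), hP n]
          · have hzA : z ∈ A S u (g k) := hzM.1
            rw [hk] at hzA
            obtain ⟨h1, h2, h3, h4, h5⟩ := hzA
            have h6 := hC2 z c P hc hP
            refine ⟨fun i hi => ?_, fun i hi => ?_, fun hj => ?_⟩
            · have h7 := h2 i hi
              rw [h6] at h7
              exact int_of_zero h7
            · have h7 := h3 i hi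
              rw [h6] at h7
              have h8 : (1 : ℕ) • ((dp P i : ℝ) : UnitAddCircle) = 0 := by rw [one_nsmul]; exact h7
              obtain ⟨m, hm⟩ := int_of_zero h8
              exact ⟨m, by rw [← hm]; simp⟩
            · have h7 := h4 hj
              rw [h6] at h7
              exact ⟨irr_of_tf h7, hcP hc⟩
        · refine ⟨0, 0, le_rfl, fun n => ?_, fun hc => absurd hc (lt_irrefl _)⟩
          rw [hv, Set.indicator_of_notMem (fun h => hzM ((hzinv k n).1 h))]
          simp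
      rcases Nat.eq_zero_or_pos j with hj | hj
      · subst hj
        refine hRAT f hf ha μ hμ Z ρ S π hext (q + 1) d (by omega) v hvm hv1 ?_
        filter_upwards [hgv] with z hz
        obtain ⟨c, P, hc0, hP, hcP⟩ := hz
        exact ⟨c, P, hc0, hP, fun hc => ⟨(hcP hc).1, (hcP hc).2.1⟩⟩
      · obtain ⟨A', hA', hA2⟩ := hCLM j hj
        have h1 := hA2 f hf μ hμ Z ρ S π hext (q + 1) d F (by omega) hjd hFm v hvm hv1 (by
          filter_upwards [hgv] with z hz
          obtain ⟨c, P, hc0, hP, hcP⟩ := hz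
          refine ⟨c, P, hc0, hP, fun hc => ?_⟩
          obtain ⟨h1, h2, h3⟩ := hcP hc
          obtain ⟨h4, h5⟩ := h3 hj
          refine ⟨h1, h2, h4, ?_⟩
          obtain ⟨j', q', d', hq', hjd', h6, h7, h8⟩ := hTYP P
          have hjj : j' = j := by
            rcases lt_trichotomy j' j with h | h | h
            · obtain ⟨m, hm⟩ := h6 j h
              exact absurd h4 (not_irr_of_int hq' hm)
            · exact h
            · obtain ⟨m, hm⟩ := h1 j' h
              exact absurd (h8 (by omega)).1 (not_irr_of_int (by omega) hm)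
          subst hjj
          obtain ⟨h9, h10, h11⟩ := h8 hj
          have h12 : P.coeff j' ∈ E := h5 j' hj h10 h11
          obtain ⟨r, hr⟩ := (hDPC P j').2.2 h11
          have h13 := hF (P.coeff j') (((q + 1) * (d ! / j' !) * j' ! : ℕ) : ℚ) (((q + 1) * (d ! / j' !) : ℕ) * r) h12 (by
            have h14 : j' ! ≤ d ! := Nat.factorial_le hjd
            have h15 : 1 ≤ d ! / j' ! := (Nat.one_le_div_iff (Nat.factorial_pos j')).2 h14
            have h16 : (q + 1) * (d ! / j' !) * j' ! ≠ 0 :=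
              Nat.mul_ne_zero (Nat.mul_ne_zero (by omega) (by omega)) (Nat.factorial_ne_zero _)
            exact_mod_cast h16)
          have h14 : (((q + 1) * (d ! / j' !) : ℕ)) • ((dp P j' : ℝ) : UnitAddCircle) =
              ((((((q + 1) * (d ! / j' !) * j' ! : ℕ) : ℚ) : ℝ) * P.coeff j' + ((((q + 1) * (d ! / j' !) : ℕ) * r : ℚ) : ℝ) : ℝ) : UnitAddCircle) := by
            rw [← AddCircle.coe_nsmul, nsmul_eq_mul, hr]
            congr 1
            push_cast
            ring
          rw [h14]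
          exact h13)
        rw [hF0, ENNReal.toReal_zero, Real.zero_rpow (by
          have : (0 : ℝ) < A' := by exact_mod_cast hA'
          positivity), mul_zero] at h1
        exact norm_le_zero_iff.1 h1
    · have hem : M k = ∅ := by
        rw [Set.eq_empty_iff_forall_notMem]
        rintro z ⟨h1, -⟩
        rw [hk] at h1
        exact hjd h1.2.2.2.2
      have : v = 0 := by
        rw [hv, hem, Set.indicator_empty]
        rfl
      rw [this]
      simp
  rw [show (fun k => ∫ z in M k, ((π z 0 : ℝ) : ℂ) * u z ∂ρ) = fun _ => (0 : ℂ) from funext hzero] at hsum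
  exact hsum.unique hasSum_zero

end Pool.Agent.Helper42K9.AC
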