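import Pool.Agent.Helper42K9.AC.Win

/-!
# AC, leaf [FUR] (helper55 for helper42)
-/

set_option autoImplicit false

namespace Pool.Agent.Helper42K9.AC

open Finset MeasureTheory Polynomial Filter Topology

namespace FurL

open WinL

instance : Finite Val := by
  unfold Val
  exact (Set.toFinite ({-1, 0, 1} : Set ℝ)).to_subtype

theorem abs_val (v : Val) : |(v : ℝ)| ≤ 1 := by
  obtain ⟨v, hv⟩ := v
  simp only [Set.mem_insert_iff, Set.mem_singleton_iff] at hv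
  rcases hv with h | h | h <;> subst h <;> simp

/-- a function of the coordinates `1, ..., H` is continuous -/
theorem cont_of_fin (H : ℕ) (G : Sq → ℝ) (G' : (↥(Icc 1 H) → Val) → ℝ)
    (h : ∀ x : Sq, G x = G' (fun i => x ((i : ℕ) : ℤ))) : Continuous G := by
  have h1 : Continuous (fun x : Sq => (fun i : ↥(Icc 1 H) => x ((i : ℕ) : ℤ))) :=
    continuous_pi fun i => continuous_apply _
  have h2 : Continuous G' := continuous_of_discreteTopology
  have h3 : G = G' ∘ (fun x : Sq => (fun i : ↥(Icc 1 H) => x ((i : ℕ) : ℤ))) := by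
    funext x; exact h x
  rw [h3]
  exact h2.comp h1

/-- the supremum over a class of the correlations with `x(1), ..., x(H)` -/
noncomputable def GG (C : Set (ℕ → ℂ)) (H : ℕ) (x : Sq) : ℝ :=
  ⨆ ψ : C, ‖∑ h ∈ Icc 1 H, (((x (h : ℤ) : ℝ)) : ℂ) * ψ.1 h‖

theorem GG_nonneg (C : Set (ℕ → ℂ)) (H : ℕ) (x : Sq) : 0 ≤ GG C H x :=
  Real.iSup_nonneg fun _ => norm_nonneg _

theorem GG_cont (C : Set (ℕ → ℂ)) (H : ℕ) : Continuous (GG C H) := by
  refine cont_of_fin H _ (fun y => ⨆ ψ : C, ‖∑ h : ↥(Icc 1 H), (((y h : ℝ)) : ℂ) * ψ.1 h‖) ?_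
  intro x
  unfold GG
  congr 1
  funext ψ
  rw [← Finset.sum_coe_sort]

theorem GG_bdd (C : Set (ℕ → ℂ)) (hC : ∀ ψ ∈ C, ∀ n, ‖ψ n‖ ≤ 1) (H : ℕ) (x : Sq) :
    BddAbove (Set.range fun ψ : C => ‖∑ h ∈ Icc 1 H, (((x (h : ℤ) : ℝ)) : ℂ) * ψ.1 h‖) := by
  refine ⟨H, ?_⟩
  rintro _ ⟨ψ, rfl⟩
  refine (norm_sum_le _ _).trans ?_
  have : ∀ h ∈ Icc 1 H, ‖(((x (h : ℤ) : ℝ)) : ℂ) * ψ.1 h‖ ≤ 1 := by
    intro h _
    rw [norm_mul, Complex.norm_real, Real.norm_eq_abs]
    calc |(x (h : ℤ) : ℝ)| * ‖ψ.1 h‖ ≤ 1 * 1 := by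
          gcongr
          · exact abs_val _
          · exact hC _ ψ.2 _
      _ = 1 := one_mul 1
  refine (Finset.sum_le_sum this).trans ?_
  simp

theorem GG_le (C : Set (ℕ → ℂ)) (hC : ∀ ψ ∈ C, ∀ n, ‖ψ n‖ ≤ 1) (H : ℕ) (x : Sq) : GG C H x ≤ H := by
  refine Real.iSup_le ?_ (Nat.cast_nonneg _)
  intro ψ
  refine (norm_sum_le _ _).trans ?_
  have : ∀ h ∈ Icc 1 H, ‖(((x (h : ℤ) : ℝ)) : ℂ) * ψ.1 h‖ ≤ 1 := by
    intro h _
    rw [norm_mul, Complex.norm_real, Real.norm_eq_abs]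
    calc |(x (h : ℤ) : ℝ)| * ‖ψ.1 h‖ ≤ 1 * 1 := by
          gcongr
          · exact abs_val _
          · exact hC _ ψ.2 _
      _ = 1 := one_mul 1
  refine (Finset.sum_le_sum this).trans ?_
  simp

theorem le_GG (C : Set (ℕ → ℂ)) (hC : ∀ ψ ∈ C, ∀ n, ‖ψ n‖ ≤ 1) (H : ℕ) (x : Sq) (ψ : ℕ → ℂ) (hψ : ψ ∈ C) :
    ‖∑ h ∈ Icc 1 H, (((x (h : ℤ) : ℝ)) : ℂ) * ψ h‖ ≤ GG C H x :=
  le_ciSup (GG_bdd C hC H x) ⟨ψ, hψ⟩

theorem Cls_norm (j q : ℕ) (K : Set UnitAddCircle) : ∀ ψ ∈ Cls j q K, ∀ n, ‖ψ n‖ ≤ 1 := by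
  rintro ψ ⟨g, R, _, hg, _, _, hψ⟩ n
  rw [hψ n, norm_mul, norm_e, mul_one]
  exact hg n

theorem seq_shift (f : ℕ → Val) (n h : ℕ) (hh : 1 ≤ h) : shift (n : ℤ) (seq f) (h : ℤ) = f (n + h) := by
  unfold shift seq
  have h1 : (1 : ℤ) ≤ (h : ℤ) + n := by omega
  rw [if_pos h1]
  congr 1
  omega

end FurL

open FurL WinL in
theorem fur : S_WIN → S_PP → S_FUR := by
  intro hwin hpp j hj
  obtain ⟨A, hA, hAm⟩ := hpp j hj
  refine ⟨A, hA, ?_⟩
  intro f hf μ hμ q K hq hKc hKi hKs ε hε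
  have hq' : (0 : ℝ) < q := by exact_mod_cast hq
  obtain ⟨H₀, hH₀⟩ := hAm K hKc hKi (ε / q) (by positivity)
  set H := max 1 H₀ with hH
  set F : ℕ → ℂ := fun n => if n = 0 then 0 else (((f n : ℝ)) : ℂ) with hF
  have hFb : ∀ n, ‖F n‖ ≤ 1 := by
    intro n
    simp only [hF]
    split_ifs
    · simp
    · rw [Complex.norm_real, Real.norm_eq_abs]; exact abs_val _
  have hFm : IsBoundedMultiplicative F := by
    refine ⟨hFb, ?_⟩
    intro a b hab
    rcases Nat.eq_zero_or_pos a with ha | ha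
    · subst ha
      simp [hF]
    · rcases Nat.eq_zero_or_pos b with hb | hb
      · subst hb
        simp [hF]
      · have h1 := hf.2 a b ha hb hab
        have hab0 : a * b ≠ 0 := (Nat.mul_pos ha hb).ne'
        simp only [hF, if_neg ha.ne', if_neg hb.ne', if_neg hab0]
        rw [h1]; push_cast; ring
  have := hμ.1
  have hC := Cls_norm j q K
  refine ⟨H, GG (Cls j q K) H, le_max_left _ _, ?_, GG_nonneg _ H, fun x ψ hψ => le_GG _ hC H x ψ hψ, ?_⟩
  · refine Integrable.mono' (integrable_const (H : ℝ)) (GG_cont _ H).measurable.aestronglyMeasurable ?_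
    refine Filter.Eventually.of_forall fun x => ?_
    rw [Real.norm_eq_abs, abs_of_nonneg (GG_nonneg _ H x)]
    exact GG_le _ hC H x
  · obtain ⟨N, hN, hlim⟩ := hμ.2
    have hl := hlim _ (GG_cont (Cls j q K) H)
    refine le_of_tendsto hl ?_
    have hev : ∀ᶠ i in atTop, max 2 H ≤ N i := hN.eventually (eventually_ge_atTop _)
    filter_upwards [hev] with i hi
    have hi2 : 2 ≤ N i := (le_max_left _ _).trans hi
    have hiH : H ≤ N i := (le_max_right _ _).trans hi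
    have hlog : 0 < Real.log (N i : ℝ) := Real.log_pos (by exact_mod_cast hi2)
    have hpt : ∀ n : ℕ, GG (Cls j q K) H (shift (n : ℤ) (seq f)) ≤ q * windowSup j K F n H := by
      intro n
      have hws : 0 ≤ windowSup j K F n H := Real.iSup_nonneg fun _ => norm_nonneg _
      refine Real.iSup_le ?_ (by positivity)
      intro ψ
      have h1 : ∑ h ∈ Icc 1 H, (((shift (n : ℤ) (seq f) (h : ℤ) : ℝ)) : ℂ) * ψ.1 h =
          ∑ h ∈ Icc 1 H, F (n + h) * ψ.1 h := by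
        refine Finset.sum_congr rfl fun h hh => ?_
        have hh1 : 1 ≤ h := (Finset.mem_Icc.1 hh).1
        rw [seq_shift f n h hh1]
        have : n + h ≠ 0 := by omega
        simp only [hF, if_neg this]
      rw [h1]
      exact hwin j q K hj hq hKs F hFb n H ψ.1 ψ.2
    have hsum : ∑ n ∈ Icc 1 (N i), (1 / (n : ℝ)) * GG (Cls j q K) H (shift (n : ℤ) (seq f)) ≤
        q * ((A * (volume K).toReal ^ (1 / (A : ℝ)) + ε / q) * H * Real.log (N i)) := by
      calc ∑ n ∈ Icc 1 (N i), (1 / (n : ℝ)) * GG (Cls j q K) H (shift (n : ℤ) (seq f))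
          ≤ ∑ n ∈ Icc 1 (N i), (1 / (n : ℝ)) * (q * windowSup j K F n H) := by
            refine Finset.sum_le_sum fun n _ => ?_
            exact mul_le_mul_of_nonneg_left (hpt n) (by positivity)
        _ = q * ∑ n ∈ Icc 1 (N i), (1 / (n : ℝ)) * windowSup j K F n H := by
            rw [Finset.mul_sum]
            refine Finset.sum_congr rfl fun n _ => ?_
            ring
        _ ≤ _ := by
            refine mul_le_mul_of_nonneg_left ?_ hq'.le
            exact hH₀ F hFm (N i) H (le_max_right _ _) hiH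
    calc (1 / Real.log (N i : ℝ)) * ∑ n ∈ Icc 1 (N i), (1 / (n : ℝ)) * GG (Cls j q K) H (shift (n : ℤ) (seq f))
        ≤ (1 / Real.log (N i : ℝ)) * (q * ((A * (volume K).toReal ^ (1 / (A : ℝ)) + ε / q) * H * Real.log (N i))) :=
          mul_le_mul_of_nonneg_left hsum (by positivity)
      _ = (q * A * (volume K).toReal ^ (1 / (A : ℝ)) + ε) * H := by
          field_simp

end Pool.Agent.Helper42K9.AC
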