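import Pool.Agent.Helper42K9.AC.Win

/-!
# AC, leaf [NEW] (helper55 for helper42)
-/

set_option autoImplicit false

namespace Pool.Agent.Helper42K9.AC

open Finset MeasureTheory Polynomial Filter Topology

namespace NewL

open WinL

theorem newton (P : ℝ[X]) (n : ℕ) :
    P.eval (n : ℝ) = ∑ i ∈ range (n + 1), (n.choose i : ℝ) * dp P i := by
  have h := shift_eq_sum_fwdDiff_iter (1 : ℝ) (fun x : ℝ => P.eval x) n 0
  simp only [zero_add, nsmul_eq_mul, mul_one] at h
  rw [h]
  refine Finset.sum_congr rfl fun i _ => ?_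
  rw [fwdDiff_iter_eq_sum_shift]
  unfold dp
  congr 1
  refine Finset.sum_congr rfl fun l _ => ?_
  simp only [zero_add, nsmul_eq_mul, mul_one, zsmul_eq_mul]
  push_cast
  ring

theorem newton' (P : ℝ[X]) (n N : ℕ) (hN : n + 1 ≤ N) :
    P.eval (n : ℝ) = ∑ i ∈ range N, (n.choose i : ℝ) * dp P i := by
  rw [newton P n]
  refine Finset.sum_subset (Finset.range_mono hN) ?_
  intro i _ hi
  rw [Nat.choose_eq_zero_of_lt]
  · simp
  · simpa [Nat.lt_succ_iff] using hi

open Nat in
theorem dvdch (q d n i : ℕ) (hi : i ≤ d) :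
    (q : ℤ) ∣ ((n + q * d !).choose i : ℤ) - (n.choose i : ℤ) := by
  have h1 := Polynomial.sub_dvd_eval_sub ((n + q * d ! : ℕ) : ℤ) (n : ℤ) (descPochhammer ℤ i)
  rw [descPochhammer_eval_eq_descFactorial, descPochhammer_eval_eq_descFactorial,
    Nat.descFactorial_eq_factorial_mul_choose, Nat.descFactorial_eq_factorial_mul_choose] at h1
  obtain ⟨c, hc⟩ := Nat.factorial_dvd_factorial hi
  have h2 : ((n + q * d ! : ℕ) : ℤ) - (n : ℤ) = (i ! : ℤ) * (q * c) := by
    rw [hc]; push_cast; ring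
  have h3 : ((i ! * (n + q * d !).choose i : ℕ) : ℤ) - ((i ! * n.choose i : ℕ) : ℤ) =
      (i ! : ℤ) * (((n + q * d !).choose i : ℤ) - (n.choose i : ℤ)) := by
    push_cast; ring
  rw [h2, h3] at h1
  have h4 : (i ! : ℤ) ≠ 0 := by exact_mod_cast (Nat.factorial_pos i).ne'
  exact (dvd_mul_right (q : ℤ) c).trans (Int.dvd_of_mul_dvd_mul_left h4 h1)

end NewL

open NewL WinL in
open Nat in
theorem new : S_NEW := by
  intro P j q d hq hjd hj hd K hK
  refine ⟨fun n => e (∑ i ∈ Finset.Ioc j d, (n.choose i : ℝ) * dp P i),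
    ∑ i ∈ range (j + 1), C (dp P i / (i ! : ℝ)) * descPochhammer ℝ i, ?_, ?_, ?_, ?_, ?_⟩
  · intro n
    have h1 : ∃ m : ℤ, (∑ i ∈ Finset.Ioc j d, (((n + q * d !).choose i : ℕ) : ℝ) * dp P i) =
        (∑ i ∈ Finset.Ioc j d, (n.choose i : ℝ) * dp P i) + (m : ℝ) := by
      have h2 : ∀ i ∈ Finset.Ioc j d, ∃ m : ℤ, (((n + q * d !).choose i : ℕ) : ℝ) * dp P i -
          (n.choose i : ℝ) * dp P i = m := by
        intro i hi
        obtain ⟨t, ht⟩ := dvdch q d n i (Finset.mem_Ioc.1 hi).2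
        obtain ⟨m, hm⟩ := hj i (Finset.mem_Ioc.1 hi).1
        refine ⟨t * m, ?_⟩
        have h3 : (((n + q * d !).choose i : ℕ) : ℝ) - (n.choose i : ℝ) = q * t := by exact_mod_cast ht
        rw [← sub_mul, h3]
        push_cast
        rw [← hm]; ring
      choose! m hm using h2
      refine ⟨∑ i ∈ Finset.Ioc j d, m i, ?_⟩
      push_cast
      rw [← Finset.sum_congr rfl hm, ← Finset.sum_add_distrib]
      refine Finset.sum_congr rfl fun i _ => ?_
      ring
    obtain ⟨m, hm⟩ := h1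
    show e _ = e _
    rw [hm, e_add, e_int, mul_one]
  · intro n
    show ‖e _‖ ≤ 1
    rw [norm_e]
  · refine natDegree_sum_le_of_forall_le _ _ ?_
    intro i hi
    refine (natDegree_C_mul_le _ _).trans ?_
    rw [descPochhammer_natDegree]
    exact Nat.lt_succ_iff.1 (Finset.mem_range.1 hi)
  · have h1 : (∑ i ∈ range (j + 1), C (dp P i / (i ! : ℝ)) * descPochhammer ℝ i).coeff j = dp P j / (j ! : ℝ) := by
      rw [finsetSum_coeff, Finset.sum_range_succ, Finset.sum_eq_zero, zero_add, coeff_C_mul]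
      · have h2 := (monic_descPochhammer ℝ j).coeff_natDegree
        rw [descPochhammer_natDegree] at h2
        rw [h2, mul_one]
      · intro i hi
        rw [coeff_C_mul, coeff_eq_zero_of_natDegree_lt, mul_zero]
        rw [descPochhammer_natDegree]
        exact Finset.mem_range.1 hi
    rw [h1]; exact hK
  · intro n
    show e _ = e _ * e _
    rw [← e_add]
    have h1 : (∑ i ∈ range (j + 1), C (dp P i / (i ! : ℝ)) * descPochhammer ℝ i).eval (n : ℝ) =
        ∑ i ∈ range (j + 1), (n.choose i : ℝ) * dp P i := by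
      rw [eval_finsetSum]
      refine Finset.sum_congr rfl fun i _ => ?_
      rw [eval_C_mul, descPochhammer_eval_eq_descFactorial, Nat.descFactorial_eq_factorial_mul_choose]
      have h4 : (i ! : ℝ) ≠ 0 := by exact_mod_cast (Nat.factorial_pos i).ne'
      push_cast
      field_simp
    rw [h1]
    set N := max (n + 1) (d + 1) with hN
    have h2 := newton' P n N (le_max_left _ _)
    have hdN : d + 1 ≤ N := le_max_right _ _
    have h3 : ∑ i ∈ range N, (n.choose i : ℝ) * dp P i =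
        ∑ i ∈ Finset.Ioc j d, (n.choose i : ℝ) * dp P i + ∑ i ∈ range (j + 1), (n.choose i : ℝ) * dp P i +
          ∑ i ∈ Finset.Ico (d + 1) N, (n.choose i : ℝ) * dp P i := by
      rw [Finset.range_eq_Ico, Finset.range_eq_Ico, ← Finset.sum_Ico_consecutive _ (Nat.zero_le (d + 1)) hdN,
        ← Finset.sum_Ico_consecutive _ (Nat.zero_le (j + 1)) (by omega : j + 1 ≤ d + 1)]
      have : Finset.Ico (j + 1) (d + 1) = Finset.Ioc j d := by
        ext x; simp only [Finset.mem_Ico, Finset.mem_Ioc]; omega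
      rw [this]; ring
    have h4 : ∃ m : ℤ, ∑ i ∈ Finset.Ico (d + 1) N, (n.choose i : ℝ) * dp P i = m := by
      have h5 : ∀ i ∈ Finset.Ico (d + 1) N, ∃ m : ℤ, (n.choose i : ℝ) * dp P i = m := by
        intro i hi
        obtain ⟨m, hm⟩ := hd i (by have := (Finset.mem_Ico.1 hi).1; omega)
        exact ⟨n.choose i * m, by rw [hm]; push_cast; ring⟩
      choose! m hm using h5
      exact ⟨∑ i ∈ Finset.Ico (d + 1) N, m i, by push_cast; exact Finset.sum_congr rfl hm⟩
    obtain ⟨m, hm⟩ := h4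
    rw [h2, h3, hm, e_add, e_int, mul_one]

end Pool.Agent.Helper42K9.AC
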