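import Pool.Agent.Helper42K9.AC.Stm

/-!
# [NUL], null sets modulo one
-/

set_option autoImplicit false

namespace Pool.Agent.Helper42K9.AC

open Finset MeasureTheory Polynomial Filter Topology

theorem nul : S_NUL := by
  intro E hE
  set E0 : Set ℝ := toMeasurable volume E with hE0
  have hE0m : MeasurableSet E0 := measurableSet_toMeasurable _ _
  have hE0n : volume E0 = 0 := by rw [hE0, measure_toMeasurable, hE]
  -- the preimages under the affine maps
  have hq : ∀ s r : ℚ, s ≠ 0 → MeasurableSet ((fun x : ℝ => (x - r) / s) ⁻¹' E0) ∧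
      volume ((fun x : ℝ => (x - r) / s) ⁻¹' E0) = 0 := by
    intro s r hs
    have hs' : (s : ℝ) ≠ 0 := by exact_mod_cast hs
    have hm : Measurable (fun x : ℝ => (x - r) / s) := by fun_prop
    refine ⟨hm hE0m, ?_⟩
    have h1 : (fun x : ℝ => (x - r) / s) ⁻¹' E0 =
        (fun x : ℝ => x + (-(r : ℝ))) ⁻¹' ((fun x : ℝ => (s : ℝ)⁻¹ * x) ⁻¹' E0) := by
      ext x
      simp only [Set.mem_preimage]
      rw [div_eq_inv_mul, sub_eq_add_neg]
    rw [h1, measure_preimage_add_right, Real.volume_preimage_mul_left (inv_ne_zero hs'), hE0n,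
      mul_zero]
  set E1 : Set ℝ := ⋃ (p : {p : ℚ × ℚ // p.1 ≠ 0}), (fun x : ℝ => (x - p.1.2) / p.1.1) ⁻¹' E0 with hE1
  have hE1m : MeasurableSet E1 := MeasurableSet.iUnion fun p => (hq _ _ p.2).1
  have hE1n : volume E1 = 0 := by
    rw [hE1, measure_iUnion_null_iff]
    exact fun p => (hq _ _ p.2).2
  have hfact : Fact ((0 : ℝ) < 1) := ⟨zero_lt_one⟩
  let ψ : UnitAddCircle → ℝ := fun y => (AddCircle.measurableEquivIoc 1 0 y : ℝ)
  have hψm : Measurable ψ := measurable_subtype_coe.comp (AddCircle.measurableEquivIoc 1 0).measurable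
  have hψc : ∀ y : UnitAddCircle, ((ψ y : ℝ) : UnitAddCircle) = y := by
    intro y
    exact (AddCircle.measurableEquivIoc 1 0).symm_apply_apply y
  have hψi : ∀ y : UnitAddCircle, ψ y ∈ Set.Ioc (0 : ℝ) (0 + 1) := fun y =>
    (AddCircle.measurableEquivIoc 1 0 y).2
  refine ⟨ψ ⁻¹' E1, hψm hE1m, ?_, ?_⟩
  · have h1 := (UnitAddCircle.measurePreserving_mk 0).measure_preimage
      (hψm hE1m).nullMeasurableSet
    rw [← h1]
    have hle : ∀ s : Set ℝ, MeasurableSet s → (∀ x ∈ s, x ∈ Set.Ioc (0 : ℝ) (0 + 1) → x ∈ E1) →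
        (volume.restrict (Set.Ioc (0 : ℝ) (0 + 1))) s = 0 := by
      intro s hs h
      rw [Measure.restrict_apply hs]
      exact measure_mono_null (fun x hx => h x hx.1 hx.2) hE1n
    apply hle _ (AddCircle.measurable_mk' (hψm hE1m))
    intro x hx hx2
    have h2 : ψ (x : UnitAddCircle) = x := by
      have h3 : AddCircle.measurableEquivIoc 1 0 (x : UnitAddCircle) = ⟨x, hx2⟩ := by
        have h4 := (AddCircle.measurableEquivIoc (1 : ℝ) 0).apply_symm_apply ⟨x, hx2⟩
        exact h4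
      change ((AddCircle.measurableEquivIoc 1 0 (x : UnitAddCircle) : Set.Ioc (0 : ℝ) (0 + 1)) : ℝ) = x
      rw [h3]
    have h5 : ψ (x : UnitAddCircle) ∈ E1 := hx
    rwa [h2] at h5
  · intro t s r ht hs
    set y : UnitAddCircle := (((s : ℝ) * t + r : ℝ) : UnitAddCircle) with hy
    have h1 := hψc y
    have h2 : ((ψ y - ((s : ℝ) * t + r) : ℝ) : UnitAddCircle) = 0 := by
      rw [AddCircle.coe_sub, h1, hy, sub_self]
    rw [AddCircle.coe_eq_zero_iff] at h2
    obtain ⟨n, hn⟩ := h2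
    have h3 : ψ y = (s : ℝ) * t + ((r + n : ℚ) : ℝ) := by
      rw [zsmul_eq_mul, mul_one] at hn
      push_cast
      linarith
    change ψ y ∈ E1
    rw [hE1, Set.mem_iUnion]
    refine ⟨⟨(s, r + n), hs⟩, ?_⟩
    change (ψ y - ((r + n : ℚ) : ℝ)) / (s : ℝ) ∈ E0
    have hs' : (s : ℝ) ≠ 0 := by exact_mod_cast hs
    have h4 : (ψ y - ((r + n : ℚ) : ℝ)) / (s : ℝ) = t := by
      rw [h3, add_sub_cancel_right, mul_div_cancel_left₀ _ hs']
    rw [h4]
    exact subset_toMeasurable _ _ ht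

end Pool.Agent.Helper42K9.AC
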