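import Pool.Agent.Helper42K9.AC.Stm

/-!
# [PER], the periodic sequences
-/

set_option autoImplicit false

namespace Pool.Agent.Helper42K9.AC

open Finset MeasureTheory Polynomial Filter Topology

theorem PerL_iter (n : ℕ) (x : Sq) : (shift 1)^[n] x = shift n x := by
  induction n with
  | zero =>
    funext k
    simp [shift]
  | succ n ih =>
    rw [Function.iterate_succ_apply', ih]
    funext k
    simp only [shift]
    congr 1
    push_cast
    ring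

theorem PerL_meas (k : ℤ) : Measurable (fun x : Sq => (x k : ℝ)) :=
  measurable_subtype_coe.comp (measurable_pi_apply k)

theorem PerL_val (v : Val) : |(v : ℝ)| ≤ 1 := by
  rcases v.2 with h | h | h
  · rw [h]
    simp
  · rw [h]
    simp
  · rw [h]
    simp

theorem PerL_mul (x : Sq) (h k : ℤ) : |(x h : ℝ) * (x k : ℝ)| ≤ 1 := by
  rw [abs_mul]
  exact mul_le_one₀ (PerL_val _) (abs_nonneg _) (PerL_val _)

theorem PerL_int {μ : Measure Sq} [IsProbabilityMeasure μ] (h k : ℤ) :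
    Integrable (fun x : Sq => (x h : ℝ) * (x k : ℝ)) μ :=
  Integrable.of_bound ((PerL_meas h).mul (PerL_meas k)).aestronglyMeasurable 1
    (Eventually.of_forall fun x => PerL_mul x h k)

theorem PerL_abs {μ : Measure Sq} [IsProbabilityMeasure μ] (h k : ℤ) :
    |∫ x : Sq, (x h : ℝ) * (x k : ℝ) ∂μ| ≤ 1 := by
  have h1 := norm_integral_le_of_norm_le_const (μ := μ) (C := 1)
    (f := fun x : Sq => (x h : ℝ) * (x k : ℝ)) (Eventually.of_forall fun x => PerL_mul x h k)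
  simpa using h1

/-- stationarity -/
theorem PerL_stat {μ : Measure Sq} (hT : MeasurePreserving (shift 1) μ μ) (h l : ℕ) :
    ∫ x : Sq, (x (h : ℤ) : ℝ) * (x ((h : ℤ) + l) : ℝ) ∂μ =
      ∫ x : Sq, (x 0 : ℝ) * (((shift 1)^[l] x) 0 : ℝ) ∂μ := by
  have h1 : ∀ x : Sq, (((shift 1)^[l] x) 0 : ℝ) = (x (l : ℤ) : ℝ) := by
    intro x
    rw [PerL_iter]
    simp [shift]
  simp_rw [h1]
  have h2 : ∫ x : Sq, (x 0 : ℝ) * (x (l : ℤ) : ℝ) ∂μ =
      ∫ x : Sq, (x 0 : ℝ) * (x (l : ℤ) : ℝ) ∂(μ.map ((shift 1)^[h])) := by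
    rw [(hT.iterate h).map_eq]
  rw [h2, integral_map (hT.iterate h).measurable.aemeasurable]
  · congr 1
    funext x
    rw [PerL_iter]
    simp only [shift]
    rw [zero_add, add_comm (l : ℤ) h]
  · exact ((PerL_meas 0).mul (PerL_meas l)).aestronglyMeasurable

theorem PerL_pair {μ : Measure Sq} [IsProbabilityMeasure μ] (hT : MeasurePreserving (shift 1) μ μ)
    (H h h' : ℕ) (hh : h ∈ Icc 1 H) (hh' : h' ∈ Icc 1 H) :
    |∫ x : Sq, (x (h : ℤ) : ℝ) * (x (h' : ℤ) : ℝ) ∂μ| ≤ (if h = h' then 1 else 0) +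
      ∑ l ∈ range H, |∫ x : Sq, (x 0 : ℝ) * (((shift 1)^[l + 1] x) 0 : ℝ) ∂μ| *
        ((if h' = h + (l + 1) then 1 else 0) + (if h = h' + (l + 1) then 1 else 0)) := by
  rw [mem_Icc] at hh hh'
  have hnn : ∀ l : ℕ, 0 ≤ |∫ x : Sq, (x 0 : ℝ) * (((shift 1)^[l + 1] x) 0 : ℝ) ∂μ| *
        ((if h' = h + (l + 1) then (1 : ℝ) else 0) + (if h = h' + (l + 1) then 1 else 0)) := by
    intro l
    positivity
  rcases lt_trichotomy h h' with hlt | heq | hgt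
  · obtain ⟨l, hl⟩ : ∃ l, h' = h + (l + 1) := ⟨h' - h - 1, by omega⟩
    have hlH : l ∈ range H := mem_range.mpr (by omega)
    have h1 := single_le_sum (fun l _ => hnn l) hlH
    have h2 : |∫ x : Sq, (x (h : ℤ) : ℝ) * (x (h' : ℤ) : ℝ) ∂μ| =
        |∫ x : Sq, (x 0 : ℝ) * (((shift 1)^[l + 1] x) 0 : ℝ) ∂μ| := by
      rw [← PerL_stat hT h (l + 1)]
      congr 2
      funext x
      rw [hl]
      push_cast
      rfl
    have h3 : ¬ (h = h' + (l + 1)) := by omega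
    rw [if_pos hl, if_neg h3, add_zero, mul_one] at h1
    rw [h2, if_neg hlt.ne, zero_add]
    exact h1
  · rw [if_pos heq]
    have h1 := PerL_abs (μ := μ) (h : ℤ) (h' : ℤ)
    have h2 : 0 ≤ ∑ l ∈ range H, |∫ x : Sq, (x 0 : ℝ) * (((shift 1)^[l + 1] x) 0 : ℝ) ∂μ| *
        ((if h' = h + (l + 1) then (1 : ℝ) else 0) + (if h = h' + (l + 1) then 1 else 0)) :=
      sum_nonneg fun l _ => hnn l
    linarith
  · obtain ⟨l, hl⟩ : ∃ l, h = h' + (l + 1) := ⟨h - h' - 1, by omega⟩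
    have hlH : l ∈ range H := mem_range.mpr (by omega)
    have h1 := single_le_sum (fun l _ => hnn l) hlH
    have h2 : |∫ x : Sq, (x (h : ℤ) : ℝ) * (x (h' : ℤ) : ℝ) ∂μ| =
        |∫ x : Sq, (x 0 : ℝ) * (((shift 1)^[l + 1] x) 0 : ℝ) ∂μ| := by
      rw [← PerL_stat hT h' (l + 1)]
      congr 2
      funext x
      rw [hl, mul_comm]
      push_cast
      rfl
    have h3 : ¬ (h' = h + (l + 1)) := by omega
    rw [if_pos hl, if_neg h3, zero_add, mul_one] at h1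
    rw [h2, if_neg hgt.ne', zero_add]
    exact h1

/-- the double sum of the correlations -/
theorem PerL_dbl {μ : Measure Sq} [IsProbabilityMeasure μ] (hT : MeasurePreserving (shift 1) μ μ)
    (H : ℕ) : ∑ h ∈ Icc 1 H, ∑ h' ∈ Icc 1 H, |∫ x : Sq, (x (h : ℤ) : ℝ) * (x (h' : ℤ) : ℝ) ∂μ| ≤
      H * (1 + 2 * ∑ l ∈ range H, |∫ x : Sq, (x 0 : ℝ) * (((shift 1)^[l + 1] x) 0 : ℝ) ∂μ|) := by
  have h1 : ∀ h ∈ Icc 1 H, ∑ h' ∈ Icc 1 H, |∫ x : Sq, (x (h : ℤ) : ℝ) * (x (h' : ℤ) : ℝ) ∂μ| ≤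
      1 + 2 * ∑ l ∈ range H, |∫ x : Sq, (x 0 : ℝ) * (((shift 1)^[l + 1] x) 0 : ℝ) ∂μ| := by
    intro h hh
    calc ∑ h' ∈ Icc 1 H, |∫ x : Sq, (x (h : ℤ) : ℝ) * (x (h' : ℤ) : ℝ) ∂μ|
        ≤ ∑ h' ∈ Icc 1 H, ((if h = h' then 1 else 0) +
          ∑ l ∈ range H, |∫ x : Sq, (x 0 : ℝ) * (((shift 1)^[l + 1] x) 0 : ℝ) ∂μ| *
            ((if h' = h + (l + 1) then 1 else 0) + (if h = h' + (l + 1) then 1 else 0))) :=
          sum_le_sum fun h' hh' => PerL_pair hT H h h' hh hh'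
      _ = ∑ h' ∈ Icc 1 H, (if h = h' then (1 : ℝ) else 0) +
          ∑ l ∈ range H, |∫ x : Sq, (x 0 : ℝ) * (((shift 1)^[l + 1] x) 0 : ℝ) ∂μ| *
            (∑ h' ∈ Icc 1 H, (if h' = h + (l + 1) then (1 : ℝ) else 0) +
              ∑ h' ∈ Icc 1 H, (if h = h' + (l + 1) then (1 : ℝ) else 0)) := by
          rw [sum_add_distrib, sum_comm]
          congr 1
          refine sum_congr rfl fun l _ => ?_
          rw [← sum_add_distrib, mul_sum]
      _ ≤ 1 + ∑ l ∈ range H, |∫ x : Sq, (x 0 : ℝ) * (((shift 1)^[l + 1] x) 0 : ℝ) ∂μ| * (1 + 1) := by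
          refine add_le_add ?_ (sum_le_sum fun l _ => mul_le_mul_of_nonneg_left
            (add_le_add ?_ ?_) (abs_nonneg _))
          · rw [sum_ite_eq]
            split_ifs <;> norm_num
          · rw [sum_ite_eq']
            split_ifs <;> norm_num
          · have h2 : ∀ h' ∈ Icc 1 H, (if h = h' + (l + 1) then (1 : ℝ) else 0) ≤
                if h' = h - (l + 1) then 1 else 0 := by
              intro h' _
              by_cases h3 : h = h' + (l + 1)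
              · rw [if_pos h3, if_pos (by omega)]
              · rw [if_neg h3]
                split_ifs <;> norm_num
            refine (sum_le_sum h2).trans ?_
            rw [sum_ite_eq']
            split_ifs <;> norm_num
      _ = 1 + 2 * ∑ l ∈ range H, |∫ x : Sq, (x 0 : ℝ) * (((shift 1)^[l + 1] x) 0 : ℝ) ∂μ| := by
          rw [← sum_mul]
          ring
  calc _ ≤ ∑ h ∈ Icc 1 H, (1 + 2 * ∑ l ∈ range H,
        |∫ x : Sq, (x 0 : ℝ) * (((shift 1)^[l + 1] x) 0 : ℝ) ∂μ|) := sum_le_sum h1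
    _ = _ := by
        rw [sum_const, Nat.card_Icc, nsmul_eq_mul]
        simp

/-- the second moment of the sum over a residue class -/
theorem PerL_sq {μ : Measure Sq} [IsProbabilityMeasure μ] (hT : MeasurePreserving (shift 1) μ μ)
    (H : ℕ) (J : Finset ℕ) (hJ : J ⊆ Icc 1 H) :
    Integrable (fun x : Sq => (∑ h ∈ J, (x (h : ℤ) : ℝ)) ^ 2) μ ∧
    ∫ x : Sq, (∑ h ∈ J, (x (h : ℤ) : ℝ)) ^ 2 ∂μ ≤
      H * (1 + 2 * ∑ l ∈ range H, |∫ x : Sq, (x 0 : ℝ) * (((shift 1)^[l + 1] x) 0 : ℝ) ∂μ|) := by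
  have h0 : (fun x : Sq => (∑ h ∈ J, (x (h : ℤ) : ℝ)) ^ 2) =
      fun x : Sq => ∑ h ∈ J, ∑ h' ∈ J, (x (h : ℤ) : ℝ) * (x (h' : ℤ) : ℝ) := by
    funext x
    rw [sq, sum_mul_sum]
  rw [h0]
  refine ⟨integrable_finsetSum _ fun h _ => integrable_finsetSum _ fun h' _ => PerL_int _ _, ?_⟩
  rw [integral_finsetSum _ (fun h _ => integrable_finsetSum _ fun h' _ => PerL_int _ _)]
  have h1 : ∀ h ∈ J, ∫ x : Sq, ∑ h' ∈ J, (x (h : ℤ) : ℝ) * (x (h' : ℤ) : ℝ) ∂μ =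
      ∑ h' ∈ J, ∫ x : Sq, (x (h : ℤ) : ℝ) * (x (h' : ℤ) : ℝ) ∂μ := fun h _ =>
    integral_finsetSum _ fun h' _ => PerL_int _ _
  rw [sum_congr rfl h1]
  calc ∑ h ∈ J, ∑ h' ∈ J, ∫ x : Sq, (x (h : ℤ) : ℝ) * (x (h' : ℤ) : ℝ) ∂μ
      ≤ ∑ h ∈ J, ∑ h' ∈ J, |∫ x : Sq, (x (h : ℤ) : ℝ) * (x (h' : ℤ) : ℝ) ∂μ| :=
        sum_le_sum fun h _ => sum_le_sum fun h' _ => le_abs_self _
    _ ≤ ∑ h ∈ J, ∑ h' ∈ Icc 1 H, |∫ x : Sq, (x (h : ℤ) : ℝ) * (x (h' : ℤ) : ℝ) ∂μ| :=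
        sum_le_sum fun h _ => sum_le_sum_of_subset_of_nonneg hJ fun h' _ _ => abs_nonneg _
    _ ≤ ∑ h ∈ Icc 1 H, ∑ h' ∈ Icc 1 H, |∫ x : Sq, (x (h : ℤ) : ℝ) * (x (h' : ℤ) : ℝ) ∂μ| :=
        sum_le_sum_of_subset_of_nonneg hJ fun h _ _ => sum_nonneg fun h' _ => abs_nonneg _
    _ ≤ _ := PerL_dbl hT H

theorem PerL_e (t : ℝ) : ‖e t‖ = 1 := by
  have h : e t = Complex.exp ((2 * Real.pi * t : ℝ) * Complex.I) := by
    unfold e
    congr 1
    push_cast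
    ring
  rw [h, Complex.norm_exp_ofReal_mul_I]

/-- the sum of the absolute values of the sums over the residue classes -/
noncomputable def PerL_G (q H : ℕ) (x : Sq) : ℝ :=
  ∑ r ∈ range q, |∑ h ∈ (Icc 1 H).filter (fun h => h % q = r), (x (h : ℤ) : ℝ)|

theorem PerL_bd (q H : ℕ) (hq : 1 ≤ q) (x : Sq) (ψ : ℕ → ℂ) (hψ : ψ ∈ Cls 0 q Set.univ) :
    ‖∑ h ∈ Icc 1 H, (((x (h : ℤ) : ℝ)) : ℂ) * ψ h‖ ≤ PerL_G q H x := by
  obtain ⟨g, R, hg, hg1, hR, -, hψ⟩ := hψ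
  have hRc : ∀ n : ℕ, R.eval (n : ℝ) = R.coeff 0 := by
    intro n
    rw [Polynomial.eq_C_of_natDegree_le_zero hR]
    simp
  have hper : Function.Periodic g q := hg
  have h1 : ∑ h ∈ Icc 1 H, (((x (h : ℤ) : ℝ)) : ℂ) * ψ h =
      ∑ r ∈ range q, (g r * e (R.coeff 0)) *
        ((∑ h ∈ (Icc 1 H).filter (fun h => h % q = r), (x (h : ℤ) : ℝ) : ℝ) : ℂ) := by
    rw [← sum_fiberwise_of_maps_to (s := Icc 1 H) (t := range q) (g := fun h => h % q)
      (fun h _ => mem_range.mpr (Nat.mod_lt _ hq))]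
    refine sum_congr rfl fun r _ => ?_
    rw [Complex.ofReal_sum, mul_sum]
    refine sum_congr rfl fun h hh => ?_
    rw [mem_filter] at hh
    rw [hψ h, hRc h, ← hh.2, hper.map_mod_nat h]
    ring
  rw [h1]
  unfold PerL_G
  refine (norm_sum_le _ _).trans (sum_le_sum fun r _ => ?_)
  rw [norm_mul, norm_mul, PerL_e, mul_one, Complex.norm_real, Real.norm_eq_abs]
  calc ‖g r‖ * _ ≤ 1 * _ := mul_le_mul_of_nonneg_right (hg1 r) (abs_nonneg _)
    _ = _ := one_mul _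

theorem per : S_NOAT → S_MP → S_PER := by
  intro hNO hMP f hf ha μ hμ q hq ε hε
  have hP : IsProbabilityMeasure μ := hμ.1
  have hT := hMP f μ hμ
  have hq0 : (0 : ℝ) < q := by exact_mod_cast hq
  set c : ℕ → ℝ := fun l => |∫ x : Sq, (x 0 : ℝ) * (((shift 1)^[l + 1] x) 0 : ℝ) ∂μ| with hc
  have hlim := hNO f hf ha μ hμ
  set δ : ℝ := ε ^ 2 / (4 * q ^ 2) with hδ
  have hδ0 : 0 < δ := by positivity
  have h1 : ∀ᶠ H : ℕ in atTop, (1 / (H : ℝ)) * ∑ l ∈ range H, c l < δ :=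
    hlim.eventually_lt_const hδ0
  have h2 : ∀ᶠ H : ℕ in atTop, 2 * (q : ℝ) ^ 2 / ε ^ 2 ≤ (H : ℝ) :=
    tendsto_natCast_atTop_atTop.eventually_ge_atTop _
  obtain ⟨H, hH1, hH2, hH3⟩ := (h1.and (h2.and (eventually_ge_atTop 1))).exists
  have hH0 : (0 : ℝ) < H := by exact_mod_cast hH3
  have hA : ∑ l ∈ range H, c l ≤ δ * H := by
    rw [one_div, inv_mul_lt_iff₀ hH0] at hH1
    linarith
  set lam : ℝ := ε / q with hlam
  have hlam0 : 0 < lam := by positivity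
  have hm : ∀ J : Finset ℕ, Measurable (fun x : Sq => ∑ h ∈ J, (x (h : ℤ) : ℝ)) := fun J =>
    Finset.measurable_fun_sum _ fun h _ => PerL_meas _
  have hIa : ∀ J : Finset ℕ, J ⊆ Icc 1 H → Integrable (fun x : Sq => |∑ h ∈ J, (x (h : ℤ) : ℝ)|) μ := by
    intro J _
    exact (integrable_finsetSum J fun h _ => Integrable.of_bound
      (PerL_meas (h : ℤ)).aestronglyMeasurable 1 (Eventually.of_forall fun x => PerL_val _)).abs
  have hI : ∀ J : Finset ℕ, J ⊆ Icc 1 H →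
      ∫ x : Sq, |∑ h ∈ J, (x (h : ℤ) : ℝ)| ∂μ ≤ (1 + 2 * (δ * H)) / (2 * lam) + lam * H / 2 := by
    intro J hJ
    obtain ⟨hi, hs⟩ := PerL_sq hT H J hJ
    have hpt : ∀ x : Sq, |∑ h ∈ J, (x (h : ℤ) : ℝ)| ≤
        (1 / (2 * lam * H)) * (∑ h ∈ J, (x (h : ℤ) : ℝ)) ^ 2 + lam * H / 2 := by
      intro x
      set s : ℝ := ∑ h ∈ J, (x (h : ℤ) : ℝ)
      have h3 : |s| ^ 2 = s ^ 2 := sq_abs s
      have h4 : 0 < lam * H := by positivity
      have h5 : |s| = (1 / (2 * lam * H)) * (2 * (lam * H) * |s|) := by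
        field_simp
      have h6 : (1 / (2 * lam * H)) * s ^ 2 + lam * H / 2 =
          (1 / (2 * lam * H)) * (s ^ 2 + (lam * H) ^ 2) := by
        field_simp
      rw [h5, h6]
      apply mul_le_mul_of_nonneg_left _ (by positivity)
      nlinarith [sq_nonneg (|s| - lam * H)]
    calc ∫ x : Sq, |∑ h ∈ J, (x (h : ℤ) : ℝ)| ∂μ
        ≤ ∫ x : Sq, ((1 / (2 * lam * H)) * (∑ h ∈ J, (x (h : ℤ) : ℝ)) ^ 2 + lam * H / 2) ∂μ :=
          integral_mono (hIa J hJ) ((hi.const_mul _).add (integrable_const _)) hpt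
      _ = (1 / (2 * lam * H)) * ∫ x : Sq, (∑ h ∈ J, (x (h : ℤ) : ℝ)) ^ 2 ∂μ + lam * H / 2 := by
          rw [integral_add (hi.const_mul _) (integrable_const _), integral_const_mul]
          simp
      _ ≤ (1 / (2 * lam * H)) * (H * (1 + 2 * (δ * H))) + lam * H / 2 := by
          have h3 : ∫ x : Sq, (∑ h ∈ J, (x (h : ℤ) : ℝ)) ^ 2 ∂μ ≤ H * (1 + 2 * (δ * H)) :=
            hs.trans (mul_le_mul_of_nonneg_left (by linarith [hA]) hH0.le)
          have h4 := mul_le_mul_of_nonneg_left h3 (show 0 ≤ 1 / (2 * lam * H) by positivity)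
          linarith
      _ = (1 + 2 * (δ * H)) / (2 * lam) + lam * H / 2 := by
          field_simp
  refine ⟨H, PerL_G q H, hH3, ?_, ?_, fun x ψ hψ => PerL_bd q H hq x ψ hψ, ?_⟩
  · exact integrable_finsetSum _ fun r _ => hIa _ (filter_subset _ _)
  · intro x
    exact sum_nonneg fun r _ => abs_nonneg _
  · unfold PerL_G
    rw [integral_finsetSum _ (fun r _ => hIa _ (filter_subset _ _))]
    calc ∑ r ∈ range q, ∫ x : Sq, |∑ h ∈ (Icc 1 H).filter (fun h => h % q = r), (x (h : ℤ) : ℝ)| ∂μ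
        ≤ ∑ _r ∈ range q, ((1 + 2 * (δ * H)) / (2 * lam) + lam * H / 2) :=
          sum_le_sum fun r _ => hI _ (filter_subset _ _)
      _ = q * ((1 + 2 * (δ * H)) / (2 * lam) + lam * H / 2) := by
          rw [sum_const, card_range, nsmul_eq_mul]
      _ = (q ^ 2 / (2 * ε)) + ε * H / 4 + ε * H / 2 := by
          rw [hlam, hδ]
          field_simp
      _ ≤ ε * H := by
          have h3 : (q : ℝ) ^ 2 / (2 * ε) ≤ ε * H / 4 := by
            rw [div_le_iff₀ (by positivity)] at hH2 ⊢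
            nlinarith
          linarith

end Pool.Agent.Helper42K9.AC
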