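import Pool.Agent.Helper42K9.AC.Stm

/-!
# [PRE], preimages under multiplication by `m`
-/

set_option autoImplicit false

namespace Pool.Agent.Helper42K9.AC

open Finset MeasureTheory Polynomial Filter Topology

theorem pre : S_PRE := by
  intro m K hm hK hK0
  have hc : Continuous (fun y : UnitAddCircle => m • y) := continuous_nsmul m
  have hcl : IsClosed {y : UnitAddCircle | m • y ∈ K} := hK.isClosed.preimage hc
  refine ⟨hcl.isCompact, ?_, ?_, ?_⟩
  · have h1 : MeasurePreserving (fun y : UnitAddCircle => (m : ℤ) • y) volume volume :=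
      Measure.measurePreserving_zsmul volume (by exact_mod_cast (by omega : m ≠ 0))
    have h2 := h1.measure_preimage hK.isClosed.measurableSet.nullMeasurableSet
    have h3 : {y : UnitAddCircle | m • y ∈ K} = (fun y : UnitAddCircle => (m : ℤ) • y) ⁻¹' K := by
      ext y
      change m • y ∈ K ↔ (m : ℤ) • y ∈ K
      rw [natCast_zsmul]
    rw [h3]
    exact h2
  · intro y hy
    have h1 : m • (((1 / m : ℝ) : UnitAddCircle)) = 0 := by
      rw [← AddCircle.coe_nsmul, nsmul_eq_mul, mul_one_div_cancel]
      · exact AddCircle.coe_period 1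
      · exact_mod_cast (by omega : m ≠ 0)
    rw [nsmul_add, h1, add_zero]
    exact hy
  · intro t ht hr
    obtain ⟨r, hr⟩ := hr
    have h1 := hK0 _ ht
    rw [addOrderOf_eq_zero_iff'] at h1
    apply h1 r.den r.pos
    rw [← AddCircle.coe_nsmul, ← AddCircle.coe_nsmul, nsmul_eq_mul, nsmul_eq_mul, ← hr]
    have h2 : (r.den : ℝ) * ((m : ℝ) * (r : ℝ)) = ((m * r.num : ℤ) : ℝ) := by
      have h3 : (r.den : ℝ) * (r : ℝ) = r.num := by
        have h4 := Rat.den_mul_eq_num r
        exact_mod_cast h4
      push_cast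
      rw [← h3]
      ring
    rw [h2]
    rw [AddCircle.coe_eq_zero_iff]
    exact ⟨m * r.num, by simp⟩

end Pool.Agent.Helper42K9.AC
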