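import Pool.Agent.Helper42K9.AC.Clm

/-! Leaves RAT and QUA of the project AC (MP_4a7640_nt). -/

set_option autoImplicit false

namespace Pool.Agent.Helper42K9.AC

open Finset MeasureTheory Polynomial Filter Topology
open ClmL Nat

theorem rat (hPER : S_PER) (hABS : S_ABS) (hNEW : S_NEW) : S_RAT := by
  intro f hf ha μ hμ Z _ ρ _ S π hext q d hq u hu hu1 hgood
  have hqd : 1 ≤ q * d ! := Nat.one_le_iff_ne_zero.2 (Nat.mul_ne_zero (by omega) (Nat.factorial_ne_zero d))
  rw [← norm_le_zero_iff]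
  refine le_of_forall_pos_le_add fun ε hε => ?_
  rw [zero_add]
  obtain ⟨H, G, hH, hGi, hG0, hGC, hGb⟩ := hPER f hf ha μ hμ (q * d !) hqd ε hε
  have h1 := hABS Z ρ S π μ hext (Cls 0 (q * d !) Set.univ) H G hH hGi hG0 hGC u hu hu1 (by
    filter_upwards [hgood] with z hz
    obtain ⟨c, P, hc0, hP, hcP⟩ := hz
    rcases hc0.lt_or_eq with hc | hc
    · obtain ⟨h1, h2⟩ := hcP hc
      have hu0 : ‖u z‖ = c := by
        have := hP 0
        simp only [Function.iterate_zero, id_eq] at this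
        rw [this, norm_mul, norm_e, mul_one, Complex.norm_real, Real.norm_eq_abs, abs_of_pos hc]
      right
      exact ⟨c, hc0, hu0 ▸ hu1 z, fun n : ℕ => e (P.eval (n : ℝ)), hNEW P 0 q d hq (Nat.zero_le d) h1 h2 _ (Set.mem_univ _), hP⟩
    · left
      intro n
      rw [hP n, ← hc]
      simp)
  have hH0 : (0 : ℝ) < H := by exact_mod_cast hH
  have h2 := h1.trans hGb
  rw [mul_comm (H : ℝ)] at h2
  exact le_of_mul_le_mul_right h2 hH0

theorem qua (hCLM : S_CLM) (hDPC : S_DPC) : S_QUA := by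
  intro d hd
  obtain ⟨A, hA, h⟩ := hCLM d hd
  have hf0 : 1 ≤ d ! := Nat.one_le_iff_ne_zero.2 (Nat.factorial_ne_zero d)
  refine ⟨d ! * A, Nat.one_le_iff_ne_zero.2 (Nat.mul_ne_zero (by omega) (by omega)), ?_⟩
  intro f hf μ hμ Z _ ρ _ S π hext E hE u hu hu1 hgood
  have h1 := h f hf μ hμ Z ρ S π hext 1 d E le_rfl le_rfl hE u hu hu1 (by
    filter_upwards [hgood] with z hz
    obtain ⟨c, P, hc0, hP, hcP⟩ := hz
    refine ⟨c, P, hc0, hP, fun hc => ?_⟩
    obtain ⟨h2, h3, h4⟩ := hcP hc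
    have h5 : dp P d = (d ! : ℝ) * P.coeff d := (hDPC P d).2.1 h2
    refine ⟨fun i hi => ⟨0, ?_⟩, fun i hi => ⟨0, ?_⟩, ?_, ?_⟩
    · rw [(hDPC P i).1 (lt_of_le_of_lt h2 hi)]
      simp
    · rw [(hDPC P i).1 (lt_of_le_of_lt h2 hi)]
      simp
    · rw [h5]
      exact h3.natCast_mul (Nat.factorial_ne_zero d)
    · rw [h5, Nat.div_self (Nat.factorial_pos d), mul_one, one_nsmul]
      exact h4)
  refine h1.trans ?_
  have hA0 : (0 : ℝ) < A := by exact_mod_cast hA
  have hf1 : (1 : ℝ) ≤ (d ! : ℝ) := by exact_mod_cast hf0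
  rw [one_mul]
  push_cast
  apply mul_le_mul_of_nonneg_left _ (by positivity)
  apply Real.rpow_le_rpow_of_exponent_ge' ENNReal.toReal_nonneg
  · have h2 : volume E ≤ 1 := by
      calc volume E ≤ volume (Set.univ : Set UnitAddCircle) := measure_mono (Set.subset_univ _)
        _ = 1 := by simp [AddCircle.measure_univ]
    exact ENNReal.toReal_mono ENNReal.one_ne_top h2
  · positivity
  · apply one_div_le_one_div_of_le hA0
    nlinarith

end Pool.Agent.Helper42K9.AC
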