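import Mathlib

/-!
# Project AC (MP_4a7640_nt, helper42): absolute continuity of the phases

Relative phase polynomials in extensions of Furstenberg systems of multiplicative functions with values 1 and -1.
Definitions and statements of the leaves. (Mathlib only: the definitions of the results files are copied, the known
results used are the statements `S_PP`, `S_NOAT`, `S_MP`, proved at the end.)
-/

set_option autoImplicit false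

namespace Pool.Agent.Helper42K9.AC

open Finset MeasureTheory Polynomial Filter Topology
/-- the numbers `-1`, `0`, `1` -/
abbrev Val : Type := ({-1, 0, 1} : Set ℝ)

/-- the space of two-sided sequences -/
abbrev Sq : Type := ℤ → Val

/-- the `n`-th power of the shift -/
def shift (n : ℤ) (x : Sq) : Sq := fun k => x (k + n)

/-- the sequence of the values `f n`, `n ≥ 1`, extended by zero -/
noncomputable def seq (f : ℕ → Val) : Sq := fun n => if 1 ≤ n then f n.toNat else ⟨0, by simp⟩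

/-- `μ` is a Furstenberg system of `f`: a weak-star limit, along some sequence `N j → ∞`, of the
logarithmic averages of the point masses at the shifts of the sequence of values of `f` -/
def IsFurstenbergSystem (f : ℕ → Val) (μ : Measure Sq) : Prop :=
  IsProbabilityMeasure μ ∧ ∃ N : ℕ → ℕ, Tendsto N atTop atTop ∧ ∀ φ : Sq → ℝ, Continuous φ →
    Tendsto (fun j => (1 / Real.log (N j : ℝ)) * ∑ n ∈ Icc 1 (N j), (1 / (n : ℝ)) * φ (shift (n : ℤ) (seq f)))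
      atTop (𝓝 (∫ x, φ x ∂μ))

/-- multiplicative functions with values `1` and `-1` -/
def IsMult (f : ℕ → Val) : Prop := (∀ n : ℕ, 1 ≤ n → (f n : ℝ) ≠ 0) ∧
  ∀ m n : ℕ, 1 ≤ m → 1 ≤ n → Nat.Coprime m n → (f (m * n) : ℝ) = f m * f n

/-- the distance to every Dirichlet character is infinite -/
def Aperiodic (f : ℕ → Val) : Prop := ∀ Q : ℕ, 0 < Q → ∀ χ : DirichletCharacter ℂ Q,
  ¬ Summable (fun p : ℕ => if p.Prime then
    (1 - (((f p : ℝ) : ℂ) * (starRingEnd ℂ) (χ (p : ZMod Q))).re) / (p : ℝ) else 0)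

/-- `e(x) = exp(2 π i x)` -/
noncomputable def e (x : ℝ) : ℂ := Complex.exp (2 * Real.pi * Complex.I * x)

/-- `f` is multiplicative and bounded by one. -/
def IsBoundedMultiplicative (f : ℕ → ℂ) : Prop :=
  (∀ n, ‖f n‖ ≤ 1) ∧ ∀ a b : ℕ, a.Coprime b → f (a * b) = f a * f b

/-- The supremum of `|∑_{1 ≤ h ≤ H} f(n + h) e(P(n + h))|` over all real polynomials `P` of degree at most `d` whose
coefficient of `x ^ d` is in `E` modulo one; all other coefficients are arbitrary. -/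
noncomputable def windowSup (d : ℕ) (E : Set UnitAddCircle) (f : ℕ → ℂ) (n H : ℕ) : ℝ :=
  ⨆ P : {P : ℝ[X] // P.natDegree ≤ d ∧ ((P.coeff d : ℝ) : UnitAddCircle) ∈ E},
    ‖∑ h ∈ Icc 1 H, f (n + h) * e (P.1.eval ((n + h : ℕ) : ℝ))‖

/-- [PP] `Results/MP_663568_nt/PolynomialPhases`, part (1) (helper42 puts it in at the end) -/
def S_PP : Prop := ∀ d : ℕ, 1 ≤ d → ∃ A : ℕ, 1 ≤ A ∧ ∀ E : Set UnitAddCircle, IsCompact E →
  (∀ t : ℝ, (t : UnitAddCircle) ∈ E → Irrational t) → ∀ ε : ℝ, 0 < ε →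
  ∃ H₀ : ℕ, ∀ f : ℕ → ℂ, IsBoundedMultiplicative f → ∀ N H : ℕ, H₀ ≤ H → H ≤ N →
    ∑ n ∈ Icc 1 N, (1 / (n : ℝ)) * windowSup d E f n H ≤
      (A * (volume E).toReal ^ (1 / (A : ℝ)) + ε) * H * Real.log N

/-- [NOAT] `Results/MP_4a7640_nt/PhasePolynomials`, `no_atoms` (helper42 puts it in at the end) -/
def S_NOAT : Prop := ∀ f : ℕ → Val, IsMult f → Aperiodic f → ∀ μ : Measure Sq, IsFurstenbergSystem f μ →
  Tendsto (fun H : ℕ => (1 / (H : ℝ)) * ∑ h ∈ range H,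
    |∫ x : Sq, (x 0 : ℝ) * (((shift 1)^[h + 1] x) 0 : ℝ) ∂μ|) atTop (𝓝 0)

/-- [MP] `Results/MP_4a7640_nt/PhasePolynomials`, `mp_shift` (helper42 puts it in at the end) -/
def S_MP : Prop := ∀ (f : ℕ → Val) (μ : Measure Sq), IsFurstenbergSystem f μ → MeasurePreserving (shift 1) μ μ

/-- `(Z, ρ, S)` is an extension of `(Sq, μ, shift 1)` with factor map `π` -/
structure Ext {Z : Type} [MeasurableSpace Z] (ρ : Measure Z) (S : Z → Z) (π : Z → Sq) (μ : Measure Sq) : Prop where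
  inv : MeasurePreserving S ρ ρ
  fac : MeasurePreserving π ρ μ
  eqv : ∀ᵐ z ∂ρ, π (S z) = shift 1 (π z)

/-- the sequences `g(n) e(R(n))`, `g` bounded by one with period `q`, `R` a real polynomial of degree at most `j` with
coefficient of `x ^ j` in `K` modulo one -/
def Cls (j q : ℕ) (K : Set UnitAddCircle) : Set (ℕ → ℂ) :=
  {ψ | ∃ (g : ℕ → ℂ) (R : ℝ[X]), (∀ n, g (n + q) = g n) ∧ (∀ n, ‖g n‖ ≤ 1) ∧ R.natDegree ≤ j ∧
    ((R.coeff j : ℝ) : UnitAddCircle) ∈ K ∧ ∀ n : ℕ, ψ n = g n * e (R.eval (n : ℝ))}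

/-- the `i`-th difference at zero of a polynomial -/
noncomputable def dp (P : ℝ[X]) (i : ℕ) : ℝ :=
  ∑ l ∈ range (i + 1), (-1 : ℝ) ^ (i - l) * (i.choose l : ℝ) * P.eval (l : ℝ)

/-- the phase of a complex number, modulo one -/
noncomputable def ph (w : ℂ) : UnitAddCircle := ((Complex.arg w / (2 * Real.pi) : ℝ) : UnitAddCircle)

/-- the `i`-th difference of the phase of `u` along the orbit of `z` -/
noncomputable def cf {Z : Type} (S : Z → Z) (u : Z → ℂ) (i : ℕ) (z : Z) : UnitAddCircle :=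
  ∑ l ∈ range (i + 1), ((-1 : ℤ) ^ (i - l) * (i.choose l : ℤ)) • ph (u (S^[l] z))

/-- [WIN] Proof: `g(h) = ∑_{k < q} c_k e(k h / q)` with `|c_k| ≤ 1` (`c_k = (1/q) ∑_{r < q} g(r) e(-k r / q)`), and
`e(R(h) + k h / q) = e(-k n / q) e(R_k(n + h))`, `R_k(t) = R(t - n) + (k/q) t`, whose degree is at most `j`; its
coefficient of `t ^ j` is that of `R`, plus `k/q` if `j = 1`, so in `K`. Each of the `q` terms is at most `windowSup`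
(bounded above by `H`). -/
def S_WIN : Prop := ∀ (j q : ℕ) (K : Set UnitAddCircle), 1 ≤ j → 1 ≤ q →
  (∀ y ∈ K, y + ((1 / q : ℝ) : UnitAddCircle) ∈ K) → ∀ f : ℕ → ℂ, (∀ n, ‖f n‖ ≤ 1) → ∀ n H : ℕ, ∀ ψ ∈ Cls j q K,
  ‖∑ h ∈ Icc 1 H, f (n + h) * ψ h‖ ≤ q * windowSup j K f n H

/-- [FUR] `S_WIN → S_PP → S_FUR`. Proof: `S_PP j` gives `A`, and `H₀` for `K` and `ε / q`; `H = max 1 H₀`,
`G x = ⨆ ψ : Cls j q K, ‖∑ h, x(h) ψ(h)‖` depends on `x(1), ..., x(H)` only (finitely many values), so it is continuous,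
and `G (shift n (seq f)) ≤ q * windowSup j K f n H`; take the limit over `N j`. (`f 1 = 1`, `f` as a function to `ℂ` may be
changed at `0`: `IsBoundedMultiplicative` for `n ↦ if n = 0 then 0 else f n`.) -/
def S_FUR : Prop := ∀ j : ℕ, 1 ≤ j → ∃ A : ℕ, 1 ≤ A ∧ ∀ f : ℕ → Val, IsMult f → ∀ μ : Measure Sq,
  IsFurstenbergSystem f μ → ∀ (q : ℕ) (K : Set UnitAddCircle), 1 ≤ q → IsCompact K →
  (∀ t : ℝ, (t : UnitAddCircle) ∈ K → Irrational t) → (∀ y ∈ K, y + ((1 / q : ℝ) : UnitAddCircle) ∈ K) →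
  ∀ ε : ℝ, 0 < ε → ∃ (H : ℕ) (G : Sq → ℝ), 1 ≤ H ∧ Integrable G μ ∧ (∀ x, 0 ≤ G x) ∧
    (∀ x : Sq, ∀ ψ ∈ Cls j q K, ‖∑ h ∈ Icc 1 H, (((x (h : ℤ) : ℝ)) : ℂ) * ψ h‖ ≤ G x) ∧
    ∫ x, G x ∂μ ≤ (q * A * (volume K).toReal ^ (1 / (A : ℝ)) + ε) * H

/-- [PER] `S_NOAT → S_MP → S_PER`. Proof: `R` is constant, so `ψ` has period `q`: `ψ(h) = ∑_{k < q} c_k e(k h / q)`, `|c_k| ≤ 1`, and
`G x = ∑_{k < q} |∑_{h ≤ H} x(h) e(k h / q)|`; the integral of each term is at most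
`(∑_{h, h'} |∫ x(h) x(h') dμ|)^(1/2) ≤ (H + 2 H ∑_{l ≤ H} |∫ x(0) x(l) dμ|)^(1/2) = o(H)` by `S_NOAT`. -/
def S_PER : Prop := ∀ f : ℕ → Val, IsMult f → Aperiodic f → ∀ μ : Measure Sq, IsFurstenbergSystem f μ →
  ∀ q : ℕ, 1 ≤ q → ∀ ε : ℝ, 0 < ε → ∃ (H : ℕ) (G : Sq → ℝ), 1 ≤ H ∧ Integrable G μ ∧ (∀ x, 0 ≤ G x) ∧
    (∀ x : Sq, ∀ ψ ∈ Cls 0 q Set.univ, ‖∑ h ∈ Icc 1 H, (((x (h : ℤ) : ℝ)) : ℂ) * ψ h‖ ≤ G x) ∧
    ∫ x, G x ∂μ ≤ ε * H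

/-- [ABS] no hypotheses. Proof: `∫ π(z)(0) u(z) dρ = ∫ π(S^h z)(0) u(S^h z) dρ = ∫ π(z)(h) u(S^h z) dρ` for
`1 ≤ h ≤ H`; add up; almost everywhere `|∑_h π(z)(h) u(S^h z)| ≤ c G(π z) ≤ G(π z)`. -/
def S_ABS : Prop := ∀ (Z : Type) [MeasurableSpace Z] (ρ : Measure Z) [IsProbabilityMeasure ρ] (S : Z → Z)
  (π : Z → Sq) (μ : Measure Sq), Ext ρ S π μ → ∀ (C : Set (ℕ → ℂ)) (H : ℕ) (G : Sq → ℝ), 1 ≤ H → Integrable G μ →
  (∀ x, 0 ≤ G x) → (∀ x : Sq, ∀ ψ ∈ C, ‖∑ h ∈ Icc 1 H, (((x (h : ℤ) : ℝ)) : ℂ) * ψ h‖ ≤ G x) →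
  ∀ u : Z → ℂ, Measurable u → (∀ z, ‖u z‖ ≤ 1) →
  (∀ᵐ z ∂ρ, (∀ n : ℕ, u (S^[n] z) = 0) ∨
    ∃ c : ℝ, 0 ≤ c ∧ c ≤ 1 ∧ ∃ ψ ∈ C, ∀ n : ℕ, u (S^[n] z) = c * ψ n) →
  H * ‖∫ z, ((π z 0 : ℝ) : ℂ) * u z ∂ρ‖ ≤ ∫ x, G x ∂μ

open Nat in
/-- [NEW] no hypotheses. Proof: Newton's formula `P(n) = ∑_i dp P i * binom(n, i)` (`shift_eq_sum_fwdDiff_iter`,
`fwdDiff_iter_eq_sum_shift`, `Polynomial.fwdDiff_iter_eq_zero_of_degree_lt`), `R = ∑_{i ≤ j} (dp P i / i!) x (x-1) ... (x-i+1)`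
(`descPochhammer`), `g(n) = e(∑_{i > j} dp P i * binom(n, i))`; `binom(n + q d!, i) - binom(n, i)` is divisible by `q` for
`i ≤ d` (`i! binom(n, i)` is a polynomial in `n` with integral coefficients, `Polynomial.sub_dvd_eval_sub`). -/
def S_NEW : Prop := ∀ (P : ℝ[X]) (j q d : ℕ), 1 ≤ q → j ≤ d → (∀ i > j, ∃ m : ℤ, (q : ℝ) * dp P i = m) →
  (∀ i > d, ∃ m : ℤ, dp P i = m) → ∀ K : Set UnitAddCircle, ((dp P j / (j ! : ℝ) : ℝ) : UnitAddCircle) ∈ K →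
  (fun n : ℕ => e (P.eval (n : ℝ))) ∈ Cls j (q * d !) K

open Nat in
/-- [DPC] differences and coefficients; `fwdDiff_iter_pow_eq_zero_of_lt`, `fwdDiff_iter_eq_factorial`; the `i`-th difference of
`x ^ l` is an integer. -/
def S_DPC : Prop := ∀ (P : ℝ[X]) (i : ℕ),
  (P.natDegree < i → dp P i = 0) ∧ (P.natDegree ≤ i → dp P i = (i ! : ℝ) * P.coeff i) ∧
  ((∀ l > i, ¬ Irrational (P.coeff l)) → ∃ r : ℚ, dp P i = (i ! : ℝ) * P.coeff i + r)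

/-- [TYP] `S_DPC → S_TYP`. `j` is the largest positive index with irrational coefficient (zero if there is none), `d` the
degree, `q` a common denominator of the rational numbers `dp P i`, `j < i ≤ d`. -/
def S_TYP : Prop := ∀ P : ℝ[X], ∃ j q d : ℕ, 1 ≤ q ∧ j ≤ d ∧ (∀ i > j, ∃ m : ℤ, (q : ℝ) * dp P i = m) ∧
  (∀ i > d, dp P i = 0) ∧ (1 ≤ j → Irrational (dp P j) ∧ Irrational (P.coeff j) ∧ ∀ l > j, ¬ Irrational (P.coeff l))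

/-- [CFP] no hypotheses. Pascal's rule; `ph (c e(t)) = t` modulo one for `c > 0` (see `Pool/Agent/R509/PP/Abs2.lean`, `arg_lift`). -/
def S_CFP : Prop := ∀ (Z : Type) (S : Z → Z) (u : Z → ℂ),
  (∀ i z, cf S u i (S z) = cf S u i z + cf S u (i + 1) z) ∧
  ∀ (z : Z) (c : ℝ) (P : ℝ[X]), 0 < c → (∀ n : ℕ, u (S^[n] z) = c * e (P.eval (n : ℝ))) →
    ∀ i, cf S u i z = ((dp P i : ℝ) : UnitAddCircle)

/-- [NUL] no hypotheses. `E₀ = toMeasurable volume E`, `E₁ = {t | s t + r ∈ E₀ for some rational s ≠ 0, r}` is Borel and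
null, and `F = {y | the representative of y in (0, 1] is in E₁}` (`AddCircle.measurableEquivIoc`,
`UnitAddCircle.measurePreserving_mk`). -/
def S_NUL : Prop := ∀ E : Set ℝ, volume E = 0 → ∃ F : Set UnitAddCircle, MeasurableSet F ∧ volume F = 0 ∧
  ∀ (t : ℝ) (s r : ℚ), t ∈ E → s ≠ 0 → (((s : ℝ) * t + r : ℝ) : UnitAddCircle) ∈ F

/-- [PRE] no hypotheses: preimages under multiplication by `m` (see `FU` Kap, Trig for the measure). -/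
def S_PRE : Prop := ∀ (m : ℕ) (K : Set UnitAddCircle), 1 ≤ m → IsCompact K → (∀ y ∈ K, addOrderOf y = 0) →
  IsCompact {y : UnitAddCircle | m • y ∈ K} ∧ volume {y : UnitAddCircle | m • y ∈ K} = volume K ∧
  (∀ y : UnitAddCircle, m • y ∈ K → m • (y + ((1 / m : ℝ) : UnitAddCircle)) ∈ K) ∧
  ∀ t : ℝ, m • (t : UnitAddCircle) ∈ K → Irrational t

/-- [REG] no hypotheses: inner regularity of finite measures; the torsion points are a countable union of closed sets. -/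
def S_REG : Prop := ∀ (lam : Measure UnitAddCircle) [IsFiniteMeasure lam] (E : Set UnitAddCircle), MeasurableSet E →
  ∀ η : ℝ, 0 < η → ∃ K : Set UnitAddCircle, K ⊆ E ∧ IsCompact K ∧ (∀ y ∈ K, addOrderOf y = 0) ∧
    lam ({y ∈ E | addOrderOf y = 0} \ K) < ENNReal.ofReal η

/-- [AEI] no hypotheses: `ρ (S⁻¹ M) = ρ M` and `M` is contained in `S⁻¹ M` almost everywhere, so they are equal almost
everywhere; iterate. -/
def S_AEI : Prop := ∀ (Z : Type) [MeasurableSpace Z] (ρ : Measure Z) [IsProbabilityMeasure ρ] (S : Z → Z),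
  MeasurePreserving S ρ ρ → ∀ M : Set Z, MeasurableSet M → (∀ᵐ z ∂ρ, z ∈ M → S z ∈ M) →
  ∀ᵐ z ∂ρ, ∀ n : ℕ, (S^[n] z ∈ M ↔ z ∈ M)

open Nat in
/-- [CLM] `S_FUR → S_ABS → S_NEW → S_CFP → S_PRE → S_REG → S_CLM`. `κ(z) = (q d!/j!) cf S u j z`; for `η > 0` take `K` from
`S_REG` for the law of `κ`, and `v = u` times the indicator of `κ ∈ K`, apply `S_FUR`, `S_ABS` to `v` and the class
`Cls j (q d!) {y | (q d!) y ∈ K}`. -/
def S_CLM : Prop := ∀ j : ℕ, 1 ≤ j → ∃ A : ℕ, 1 ≤ A ∧ ∀ f : ℕ → Val, IsMult f → ∀ μ : Measure Sq,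
  IsFurstenbergSystem f μ → ∀ (Z : Type) [MeasurableSpace Z] (ρ : Measure Z) [IsProbabilityMeasure ρ] (S : Z → Z)
  (π : Z → Sq), Ext ρ S π μ → ∀ (q d : ℕ) (E : Set UnitAddCircle), 1 ≤ q → j ≤ d → MeasurableSet E →
  ∀ u : Z → ℂ, Measurable u → (∀ z, ‖u z‖ ≤ 1) →
  (∀ᵐ z ∂ρ, ∃ (c : ℝ) (P : ℝ[X]), 0 ≤ c ∧ (∀ n : ℕ, u (S^[n] z) = c * e (P.eval (n : ℝ))) ∧
    (0 < c → (∀ i > j, ∃ m : ℤ, (q : ℝ) * dp P i = m) ∧ (∀ i > d, ∃ m : ℤ, dp P i = m) ∧ Irrational (dp P j) ∧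
      (q * (d ! / j !)) • ((dp P j : ℝ) : UnitAddCircle) ∈ E)) →
  ‖∫ z, ((π z 0 : ℝ) : ℂ) * u z ∂ρ‖ ≤ (q * d ! : ℕ) * A * (volume E).toReal ^ (1 / (A : ℝ))

/-- [RAT] `S_PER → S_ABS → S_NEW → S_RAT` -/
def S_RAT : Prop := ∀ f : ℕ → Val, IsMult f → Aperiodic f → ∀ μ : Measure Sq,
  IsFurstenbergSystem f μ → ∀ (Z : Type) [MeasurableSpace Z] (ρ : Measure Z) [IsProbabilityMeasure ρ] (S : Z → Z)
  (π : Z → Sq), Ext ρ S π μ → ∀ (q d : ℕ), 1 ≤ q → ∀ u : Z → ℂ, Measurable u → (∀ z, ‖u z‖ ≤ 1) →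
  (∀ᵐ z ∂ρ, ∃ (c : ℝ) (P : ℝ[X]), 0 ≤ c ∧ (∀ n : ℕ, u (S^[n] z) = c * e (P.eval (n : ℝ))) ∧
    (0 < c → (∀ i > 0, ∃ m : ℤ, (q : ℝ) * dp P i = m) ∧ (∀ i > d, ∃ m : ℤ, dp P i = m))) →
  ∫ z, ((π z 0 : ℝ) : ℂ) * u z ∂ρ = 0

/-- the top irrational coefficient of positive degree, if there is one, is in `E` -/
def TopIn (E : Set ℝ) (P : ℝ[X]) : Prop :=
  ∀ j ≥ 1, Irrational (P.coeff j) → (∀ i > j, ¬ Irrational (P.coeff i)) → P.coeff j ∈ E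

/-- [FIN] `S_CLM → S_RAT → S_TYP → S_DPC → S_CFP → S_NUL → S_AEI → S_FIN`. Countably many sets `A(j, q, d)` of the `z` with
`u z ≠ 0`, `q cf_i(z) = 0` for `i > j`, `cf_i(z) = 0` for `i > d`, `cf_j(z)` not torsion if `j ≥ 1`. -/
def S_FIN : Prop := ∀ f : ℕ → Val, IsMult f → Aperiodic f → ∀ μ : Measure Sq, IsFurstenbergSystem f μ →
  ∀ (Z : Type) [MeasurableSpace Z] (ρ : Measure Z) [IsProbabilityMeasure ρ] (S : Z → Z) (π : Z → Sq), Ext ρ S π μ →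
  ∀ E : Set ℝ, volume E = 0 → ∀ u : Z → ℂ, Measurable u → (∀ z, ‖u z‖ ≤ 1) →
  (∀ᵐ z ∂ρ, ∃ (c : ℝ) (P : ℝ[X]), 0 ≤ c ∧ (∀ n : ℕ, u (S^[n] z) = c * e (P.eval (n : ℝ))) ∧ (0 < c → TopIn E P)) →
  ∫ z, ((π z 0 : ℝ) : ℂ) * u z ∂ρ = 0

open Nat in
/-- [QUA] `S_CLM → S_DPC → S_QUA` (`q = 1`, `j = d`, `A' = d! A`) -/
def S_QUA : Prop := ∀ d : ℕ, 1 ≤ d → ∃ A : ℕ, 1 ≤ A ∧ ∀ f : ℕ → Val, IsMult f → ∀ μ : Measure Sq,
  IsFurstenbergSystem f μ → ∀ (Z : Type) [MeasurableSpace Z] (ρ : Measure Z) [IsProbabilityMeasure ρ] (S : Z → Z)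
  (π : Z → Sq), Ext ρ S π μ → ∀ E : Set UnitAddCircle, MeasurableSet E → ∀ u : Z → ℂ, Measurable u → (∀ z, ‖u z‖ ≤ 1) →
  (∀ᵐ z ∂ρ, ∃ (c : ℝ) (P : ℝ[X]), 0 ≤ c ∧ (∀ n : ℕ, u (S^[n] z) = c * e (P.eval (n : ℝ))) ∧
    (0 < c → P.natDegree ≤ d ∧ Irrational (P.coeff d) ∧ (((d ! : ℝ) * P.coeff d : ℝ) : UnitAddCircle) ∈ E)) →
  ‖∫ z, ((π z 0 : ℝ) : ℂ) * u z ∂ρ‖ ≤ A * (volume E).toReal ^ (1 / (A : ℝ))

end Pool.Agent.Helper42K9.AC
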