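import Pool.Agent.Helper42K9.AC.Stm

/-!
# AC, leaf [WIN] (helper55 for helper42)
-/

set_option autoImplicit false

namespace Pool.Agent.Helper42K9.AC

open Finset MeasureTheory Polynomial Filter Topology

namespace WinL

theorem e_add (x y : ℝ) : e (x + y) = e x * e y := by
  unfold e; rw [← Complex.exp_add]; congr 1; push_cast; ring

theorem norm_e (x : ℝ) : ‖e x‖ = 1 := by
  unfold e
  have h : (2 * Real.pi * Complex.I * x : ℂ) = ((2 * Real.pi * x : ℝ) : ℂ) * Complex.I := by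
    push_cast; ring
  rw [h, Complex.norm_exp_ofReal_mul_I]

theorem e_zero : e 0 = 1 := by unfold e; simp

theorem e_int (n : ℤ) : e (n : ℝ) = 1 := by
  unfold e
  have h : (2 * Real.pi * Complex.I * ((n : ℝ) : ℂ) : ℂ) = (n : ℂ) * (2 * Real.pi * Complex.I) := by
    push_cast; ring
  rw [h, Complex.exp_int_mul_two_pi_mul_I]

theorem e_nat_mul (k : ℕ) (x : ℝ) : e (k * x) = e x ^ k := by
  unfold e
  rw [← Complex.exp_nat_mul]
  congr 1; push_cast; ring

theorem e_eq_one (x : ℝ) (h : e x = 1) : ∃ n : ℤ, x = n := by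
  unfold e at h
  rw [Complex.exp_eq_one_iff] at h
  obtain ⟨n, hn⟩ := h
  refine ⟨n, ?_⟩
  have h1 : (2 * Real.pi * Complex.I : ℂ) ≠ 0 := by
    simp [Real.pi_ne_zero]
  have h2 : (x : ℂ) = (n : ℂ) := by
    have : (2 * Real.pi * Complex.I : ℂ) * x = (2 * Real.pi * Complex.I : ℂ) * n := by
      rw [hn]; ring
    exact mul_left_cancel₀ h1 this
  exact_mod_cast h2

theorem orth (q : ℕ) (hq : 1 ≤ q) (a : ℤ) :
    ∑ k ∈ range q, e ((k : ℝ) * ((a : ℝ) / q)) = if (q : ℤ) ∣ a then (q : ℂ) else 0 := by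
  have hq0 : (q : ℝ) ≠ 0 := by positivity
  simp_rw [e_nat_mul]
  split_ifs with hd
  · obtain ⟨b, rfl⟩ := hd
    have h1 : e (((((q : ℤ) * b : ℤ)) : ℝ) / q) = 1 := by
      have : ((((q : ℤ) * b : ℤ)) : ℝ) / q = ((b : ℤ) : ℝ) := by
        push_cast; field_simp
      rw [this, e_int]
    rw [h1]; simp
  · have h1 : e ((a : ℝ) / q) ≠ 1 := by
      intro h
      obtain ⟨n, hn⟩ := e_eq_one _ h
      apply hd
      refine ⟨n, ?_⟩
      have : (a : ℝ) = q * n := by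
        rw [div_eq_iff hq0] at hn
        rw [hn]; ring
      exact_mod_cast this
    rw [geom_sum_eq h1, ← e_nat_mul]
    have h2 : (q : ℝ) * ((a : ℝ) / q) = ((a : ℤ) : ℝ) := by field_simp
    rw [h2, e_int]; simp

/-- Fourier coefficient of a sequence with period `q` -/
noncomputable def fc (q : ℕ) (g : ℕ → ℂ) (k : ℕ) : ℂ :=
  (1 / (q : ℂ)) * ∑ r ∈ range q, g r * e (-((k : ℝ) * (r / q)))

theorem norm_fc (q : ℕ) (hq : 1 ≤ q) (g : ℕ → ℂ) (hg : ∀ n, ‖g n‖ ≤ 1) (k : ℕ) : ‖fc q g k‖ ≤ 1 := by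
  unfold fc
  rw [norm_mul]
  have h1 : ‖∑ r ∈ range q, g r * e (-((k : ℝ) * (r / q)))‖ ≤ q := by
    refine (norm_sum_le _ _).trans ?_
    have : ∀ r ∈ range q, ‖g r * e (-((k : ℝ) * (r / q)))‖ ≤ 1 := by
      intro r _
      rw [norm_mul, norm_e, mul_one]; exact hg r
    refine (Finset.sum_le_sum this).trans ?_
    simp
  have h2 : ‖(1 / (q : ℂ))‖ = 1 / (q : ℝ) := by simp
  rw [h2]
  have hq' : (0 : ℝ) < q := by exact_mod_cast hq
  calc 1 / (q : ℝ) * ‖∑ r ∈ range q, g r * e (-((k : ℝ) * (r / q)))‖ ≤ 1 / (q : ℝ) * q := by gcongr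
    _ = 1 := by field_simp

theorem fourier (q : ℕ) (hq : 1 ≤ q) (g : ℕ → ℂ) (hg : ∀ n, g (n + q) = g n) (h : ℕ) :
    g h = ∑ k ∈ range q, fc q g k * e ((k : ℝ) * (h / q)) := by
  have hq0 : (q : ℂ) ≠ 0 := by
    have : (0 : ℕ) < q := hq
    exact_mod_cast this.ne'
  have hper : Function.Periodic g q := hg
  unfold fc
  have h1 : ∀ k ∈ range q, (1 / (q : ℂ)) * (∑ r ∈ range q, g r * e (-((k : ℝ) * (r / q)))) * e ((k : ℝ) * (h / q)) =
      ∑ r ∈ range q, (1 / (q : ℂ)) * g r * e ((k : ℝ) * ((((h : ℤ) - (r : ℤ) : ℤ) : ℝ) / q)) := by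
    intro k _
    rw [Finset.mul_sum, Finset.sum_mul]
    refine Finset.sum_congr rfl fun r _ => ?_
    have : (k : ℝ) * ((((h : ℤ) - (r : ℤ) : ℤ) : ℝ) / q) = -((k : ℝ) * (r / q)) + (k : ℝ) * (h / q) := by
      push_cast; ring
    rw [this, e_add]; ring
  rw [Finset.sum_congr rfl h1, Finset.sum_comm]
  have h2 : ∀ r ∈ range q, ∑ k ∈ range q, (1 / (q : ℂ)) * g r * e ((k : ℝ) * ((((h : ℤ) - (r : ℤ) : ℤ) : ℝ) / q)) =
      if r = h % q then g r else 0 := by
    intro r hr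
    rw [← Finset.mul_sum, orth q hq]
    have hr' : r < q := Finset.mem_range.1 hr
    by_cases hrh : r = h % q
    · rw [if_pos hrh, if_pos]
      · field_simp
      · subst hrh
        have := Int.emod_emod_of_dvd (h : ℤ) (dvd_refl (q : ℤ))
        have h3 : ((h : ℤ) - ((h % q : ℕ) : ℤ)) = q * ((h : ℤ) / q) := by
          have := Int.emod_add_mul_ediv (h : ℤ) (q : ℤ)
          push_cast
          linarith
        rw [h3]; exact dvd_mul_right _ _
    · rw [if_neg hrh, if_neg]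
      · simp
      · intro hd
        apply hrh
        have h3 : (h : ℤ) % q = (r : ℤ) % q := by
          rw [Int.emod_eq_emod_iff_emod_sub_eq_zero]; exact Int.emod_eq_zero_of_dvd hd
        have h4 : h % q = r % q := by exact_mod_cast h3
        rw [h4, Nat.mod_eq_of_lt hr']
  rw [Finset.sum_congr rfl h2, Finset.sum_ite_eq' (range q) (h % q)]
  rw [if_pos (Finset.mem_range.2 (Nat.mod_lt _ hq))]
  exact (hper.map_mod_nat h).symm

theorem coeff_taylor' (R : ℝ[X]) (j : ℕ) (h : R.natDegree ≤ j) (s : ℝ) : (taylor s R).coeff j = R.coeff j := by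
  rcases h.eq_or_lt with h1 | h1
  · subst h1
    rw [coeff_taylor_natDegree]; rfl
  · rw [coeff_eq_zero_of_natDegree_lt h1, coeff_eq_zero_of_natDegree_lt]
    rw [natDegree_taylor]; exact h1

theorem shiftK (q : ℕ) (K : Set UnitAddCircle) (hK : ∀ y ∈ K, y + ((1 / q : ℝ) : UnitAddCircle) ∈ K)
    (y : UnitAddCircle) (hy : y ∈ K) (k : ℕ) : y + (((k : ℝ) / q : ℝ) : UnitAddCircle) ∈ K := by
  induction k with
  | zero => simpa using hy
  | succ k ih =>
    have := hK _ ih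
    have h2 : y + ((((k + 1 : ℕ) : ℝ) / q : ℝ) : UnitAddCircle) =
        y + (((k : ℝ) / q : ℝ) : UnitAddCircle) + ((1 / q : ℝ) : UnitAddCircle) := by
      rw [add_assoc, ← AddCircle.coe_add]
      congr 2
      push_cast; ring
    rw [h2]; exact this

theorem bdd (d : ℕ) (E : Set UnitAddCircle) (f : ℕ → ℂ) (hf : ∀ n, ‖f n‖ ≤ 1) (n H : ℕ) :
    BddAbove (Set.range fun P : {P : ℝ[X] // P.natDegree ≤ d ∧ ((P.coeff d : ℝ) : UnitAddCircle) ∈ E} =>
      ‖∑ h ∈ Icc 1 H, f (n + h) * e (P.1.eval ((n + h : ℕ) : ℝ))‖) := by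
  refine ⟨H, ?_⟩
  rintro _ ⟨P, rfl⟩
  refine (norm_sum_le _ _).trans ?_
  have : ∀ h ∈ Icc 1 H, ‖f (n + h) * e (P.1.eval ((n + h : ℕ) : ℝ))‖ ≤ 1 := by
    intro h _
    rw [norm_mul, norm_e, mul_one]; exact hf _
  refine (Finset.sum_le_sum this).trans ?_
  simp

theorem one (j q : ℕ) (K : Set UnitAddCircle) (hj : 1 ≤ j)
    (hK : ∀ y ∈ K, y + ((1 / q : ℝ) : UnitAddCircle) ∈ K) (f : ℕ → ℂ) (hf : ∀ n, ‖f n‖ ≤ 1) (n H k : ℕ)
    (R : ℝ[X]) (hR : R.natDegree ≤ j) (hRK : ((R.coeff j : ℝ) : UnitAddCircle) ∈ K) :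
    ‖∑ h ∈ Icc 1 H, f (n + h) * (e ((k : ℝ) * (h / q)) * e (R.eval (h : ℝ)))‖ ≤ windowSup j K f n H := by
  set P : ℝ[X] := taylor (-(n : ℝ)) R + C ((k : ℝ) / q) * X + C (-((k : ℝ) / q * n)) with hP
  have hPd : P.natDegree ≤ j := by
    rw [hP]
    refine natDegree_add_le_of_degree_le (natDegree_add_le_of_degree_le ?_ ?_) ?_
    · rw [natDegree_taylor]; exact hR
    · exact ((natDegree_C_mul_le _ _).trans natDegree_X_le).trans hj
    · rw [natDegree_C]; exact Nat.zero_le _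
  have hPK : ((P.coeff j : ℝ) : UnitAddCircle) ∈ K := by
    rw [hP, coeff_add, coeff_add, coeff_taylor' R j hR, coeff_C_mul, coeff_X, coeff_C, if_neg (by omega : j ≠ 0)]
    by_cases h1 : 1 = j
    · rw [if_pos h1]
      have := shiftK q K hK _ hRK k
      rw [← AddCircle.coe_add] at this
      simpa using this
    · rw [if_neg h1]
      simpa using hRK
  have h1 : ∀ h ∈ Icc 1 H, f (n + h) * (e ((k : ℝ) * (h / q)) * e (R.eval (h : ℝ))) =
      f (n + h) * e (P.eval ((n + h : ℕ) : ℝ)) := by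
    intro h _
    rw [← e_add]
    congr 2
    rw [hP, eval_add, eval_add, taylor_eval, eval_C_mul, eval_X, eval_C]
    have : ((n + h : ℕ) : ℝ) + -(n : ℝ) = h := by push_cast; ring
    rw [this]
    push_cast; ring
  rw [Finset.sum_congr rfl h1]
  unfold windowSup
  exact le_ciSup (bdd j K f hf n H) ⟨P, hPd, hPK⟩

end WinL

open WinL in
theorem win : S_WIN := by
  intro j q K hj hq hK f hf n H ψ hψ
  obtain ⟨g, R, hper, hg, hR, hRK, hψ⟩ := hψ
  have h1 : ∑ h ∈ Icc 1 H, f (n + h) * ψ h =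
      ∑ k ∈ range q, fc q g k * ∑ h ∈ Icc 1 H, f (n + h) * (e ((k : ℝ) * (h / q)) * e (R.eval (h : ℝ))) := by
    simp_rw [Finset.mul_sum]
    rw [Finset.sum_comm]
    refine Finset.sum_congr rfl fun h _ => ?_
    rw [hψ h]
    conv_lhs => rw [fourier q hq g hper h]
    rw [Finset.sum_mul, Finset.mul_sum]
    refine Finset.sum_congr rfl fun k _ => ?_
    ring
  rw [h1]
  refine (norm_sum_le _ _).trans ?_
  have h2 : ∀ k ∈ range q, ‖fc q g k * ∑ h ∈ Icc 1 H, f (n + h) * (e ((k : ℝ) * (h / q)) * e (R.eval (h : ℝ)))‖ ≤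
      windowSup j K f n H := by
    intro k _
    rw [norm_mul]
    calc ‖fc q g k‖ * ‖∑ h ∈ Icc 1 H, f (n + h) * (e ((k : ℝ) * (h / q)) * e (R.eval (h : ℝ)))‖
        ≤ 1 * ‖∑ h ∈ Icc 1 H, f (n + h) * (e ((k : ℝ) * (h / q)) * e (R.eval (h : ℝ)))‖ := by
          gcongr; exact norm_fc q hq g hg k
      _ ≤ windowSup j K f n H := by
          rw [one_mul]; exact one j q K hj hK f hf n H k R hR hRK
  refine (Finset.sum_le_sum h2).trans ?_
  simp

end Pool.Agent.Helper42K9.AC
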